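import Pool.Agent.H979.BK.Stm

/-! # Project BK (helper979): S_SPECU from S_GAP

The mean matrix on zero sum row vectors: decomposition in generalized eigenspaces.
-/

set_option autoImplicit false

open Filter Topology Finset Pool.Agent.H979.BK

namespace Pool.Agent.H117

noncomputable section

namespace SPECU

/-- row sums -/
theorem U_row {d : ℕ} {μ : Equiv.Perm (Fin d) → ℝ} (h : IsProb μ) (i : Fin d) :
    ∑ j, U μ i j = 1 := by
  unfold U
  rw [Finset.sum_comm]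
  simp [h.2]

/-- column sums -/
theorem U_col {d : ℕ} {μ : Equiv.Perm (Fin d) → ℝ} (h : IsProb μ) (j : Fin d) :
    ∑ i, U μ i j = 1 := by
  unfold U
  rw [Finset.sum_comm]
  have h1 : ∀ σ : Equiv.Perm (Fin d), ∑ i, (if σ i = j then μ σ else 0) = μ σ := by
    intro σ
    rw [Finset.sum_eq_single (σ.symm j)]
    · simp
    · intro i _ hi
      rw [if_neg]
      intro h2
      exact hi (by rw [← h2]; simp)
    · intro h2
      exact absurd (Finset.mem_univ _) h2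
  rw [Finset.sum_congr rfl fun σ _ => h1 σ]
  exact h.2

theorem nilp {V : Type} [AddCommGroup V] [Module ℂ V] (g : Module.End ℂ V) (k : ℕ) :
    ∀ v : V, v ≠ 0 → (g ^ k) v = 0 → ∃ u : V, u ≠ 0 ∧ g u = 0 := by
  induction k with
  | zero =>
    intro v hv h
    simp at h
    exact absurd h hv
  | succ k ih =>
    intro v hv h
    by_cases hg : g v = 0
    · exact ⟨v, hv, hg⟩
    · refine ih (g v) hg ?_
      rw [pow_succ] at h
      exact h

theorem norm_a {l : ℂ} {γ ε : ℝ} (hε : 0 < ε) (hl : γ ≤ 1 - l.re) :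
    ∀ᶠ δ : ℝ in 𝓝[>] (0 : ℝ), ‖((1 - δ : ℝ) : ℂ) + ((δ : ℝ) : ℂ) * l‖ ≤
      Real.exp (-((γ - ε) * δ)) := by
  have hB : 0 < 2 * ε / (‖1 - l‖ ^ 2 + 1) := by positivity
  filter_upwards [Ioo_mem_nhdsGT hB] with δ hδ
  have hδ0 : 0 < δ := hδ.1
  have hδ1 : δ * (‖1 - l‖ ^ 2 + 1) < 2 * ε := (lt_div_iff₀ (by positivity)).1 hδ.2
  have e1 : ‖((1 - δ : ℝ) : ℂ) + ((δ : ℝ) : ℂ) * l‖ ^ 2 =
      1 - 2 * δ * (1 - l.re) + δ ^ 2 * ‖1 - l‖ ^ 2 := by
    rw [← Complex.normSq_eq_norm_sq, ← Complex.normSq_eq_norm_sq, Complex.normSq_apply,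
      Complex.normSq_apply]
    simp
    ring
  have e2 : 1 - 2 * δ * (1 - l.re) + δ ^ 2 * ‖1 - l‖ ^ 2 ≤
      Real.exp (-((γ - ε) * δ)) ^ 2 := by
    rw [← Real.exp_nat_mul]
    have h1 := Real.add_one_le_exp (((2 : ℕ) : ℝ) * -((γ - ε) * δ))
    have h2 : 1 - 2 * δ * (1 - l.re) + δ ^ 2 * ‖1 - l‖ ^ 2 ≤
        ((2 : ℕ) : ℝ) * -((γ - ε) * δ) + 1 := by
      push_cast
      have h3 : δ * (γ) ≤ δ * (1 - l.re) := mul_le_mul_of_nonneg_left hl hδ0.le
      have h4 : δ * (δ * (‖1 - l‖ ^ 2 + 1)) ≤ δ * (2 * ε) :=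
        mul_le_mul_of_nonneg_left hδ1.le hδ0.le
      nlinarith [sq_nonneg δ]
    exact h2.trans h1
  rw [← e1] at e2
  exact (pow_le_pow_iff_left₀ (norm_nonneg _) (Real.exp_pos _).le (by norm_num)).1 e2

theorem gen_bd {V : Type} [NormedAddCommGroup V] [NormedSpace ℂ V] (f : Module.End ℂ V) (l : ℂ)
    {γ ε : ℝ} (hε : 0 < ε) (hl : γ ≤ 1 - l.re) (v : V) (k : ℕ)
    (hk : ((f - l • (1 : Module.End ℂ V)) ^ k) v = 0) :
    ∃ C : ℝ, 0 ≤ C ∧ ∀ᶠ δ : ℝ in 𝓝[>] (0 : ℝ), ∀ T : ℝ, 0 ≤ T →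
      ‖(((((1 - δ : ℝ) : ℂ) • (1 : Module.End ℂ V) + ((δ : ℝ) : ℂ) • f) ^ ⌊T / δ⌋₊ :
        Module.End ℂ V)) v‖ ≤ C * (1 + T) ^ k * Real.exp (-((γ - ε) * T)) := by
  obtain ⟨g, hg⟩ : ∃ g : Module.End ℂ V, g = f - l • (1 : Module.End ℂ V) := ⟨_, rfl⟩
  rw [← hg] at hk
  have hgj : ∀ j, k ≤ j → (g ^ j) v = 0 := by
    intro j hj
    obtain ⟨i, rfl⟩ := Nat.exists_eq_add_of_le hj
    rw [add_comm, pow_add, Module.End.mul_apply, hk, map_zero]
  refine ⟨Real.exp (|γ - ε| * (k + 1)) * ∑ j ∈ range k, ‖(g ^ j) v‖, by positivity, ?_⟩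
  filter_upwards [norm_a hε hl, Ioo_mem_nhdsGT (one_pos)] with δ ha hδ T hT
  have hδ0 : 0 < δ := hδ.1
  obtain ⟨a, hadef⟩ : ∃ a : ℂ, a = ((1 - δ : ℝ) : ℂ) + ((δ : ℝ) : ℂ) * l := ⟨_, rfl⟩
  rw [← hadef] at ha
  have hdec : ((1 - δ : ℝ) : ℂ) • (1 : Module.End ℂ V) + ((δ : ℝ) : ℂ) • f =
      ((δ : ℝ) : ℂ) • g + a • (1 : Module.End ℂ V) := by
    rw [hg, hadef, smul_sub, add_smul, smul_smul]
    abel
  have hcomm : Commute (((δ : ℝ) : ℂ) • g) (a • (1 : Module.End ℂ V)) :=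
    ((Commute.one_right g).smul_right a).smul_left _
  obtain ⟨m, hm⟩ : ∃ m : ℕ, m = ⌊T / δ⌋₊ := ⟨_, rfl⟩
  have hm1 : (m : ℝ) * δ ≤ T := by
    have := Nat.floor_le (a := T / δ) (by positivity)
    rw [← hm] at this
    exact (le_div_iff₀ hδ0).1 this
  have hm2 : T < ((m : ℝ) + 1) * δ := by
    have := Nat.lt_floor_add_one (T / δ)
    rw [← hm] at this
    exact (div_lt_iff₀ hδ0).1 this
  rw [← hm, hdec, hcomm.add_pow, LinearMap.sum_apply]
  refine (norm_sum_le _ _).trans ?_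
  have hterm : ∀ j ∈ range (m + 1),
      ‖((((δ : ℝ) : ℂ) • g) ^ j * (a • (1 : Module.End ℂ V)) ^ (m - j) *
        ((m.choose j : ℕ) : Module.End ℂ V)) v‖ ≤
      (1 + T) ^ k * Real.exp (-((γ - ε) * T)) * Real.exp (|γ - ε| * (k + 1)) *
        ‖(g ^ j) v‖ := by
    intro j hj
    have hjm : j ≤ m := Nat.lt_succ_iff.1 (Finset.mem_range.1 hj)
    have e1 : ((((δ : ℝ) : ℂ) • g) ^ j * (a • (1 : Module.End ℂ V)) ^ (m - j) *
        ((m.choose j : ℕ) : Module.End ℂ V)) v =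
        (((δ : ℝ) : ℂ) ^ j * a ^ (m - j) * ((m.choose j : ℕ) : ℂ)) • (g ^ j) v := by
      rw [smul_pow, smul_pow, one_pow, Module.End.mul_apply, Module.End.mul_apply,
        Module.End.natCast_apply, LinearMap.smul_apply, LinearMap.smul_apply,
        Module.End.one_apply, map_smul, map_nsmul, ← Nat.cast_smul_eq_nsmul ℂ, smul_smul,
        smul_smul]
    rw [e1, norm_smul]
    by_cases hjk : k ≤ j
    · rw [hgj j hjk, norm_zero, mul_zero, mul_zero]
    · have hjk' : j < k := not_le.1 hjk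
      refine mul_le_mul_of_nonneg_right ?_ (norm_nonneg _)
      rw [norm_mul, norm_mul, norm_pow, norm_pow, Complex.norm_real, Real.norm_eq_abs,
        abs_of_pos hδ0, Complex.norm_natCast]
      have c1 : ((m.choose j : ℕ) : ℝ) ≤ (m : ℝ) ^ j := by
        exact_mod_cast Nat.choose_le_pow m j
      have c2 : δ ^ j * ((m.choose j : ℕ) : ℝ) ≤ (1 + T) ^ k := by
        calc δ ^ j * ((m.choose j : ℕ) : ℝ) ≤ δ ^ j * (m : ℝ) ^ j :=
              mul_le_mul_of_nonneg_left c1 (by positivity)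
          _ = ((m : ℝ) * δ) ^ j := by rw [← mul_pow, mul_comm]
          _ ≤ (1 + T) ^ j := pow_le_pow_left₀ (by positivity) (by linarith) j
          _ ≤ (1 + T) ^ k := pow_le_pow_right₀ (by linarith) hjk'.le
      have c3 : ‖a‖ ^ (m - j) ≤ Real.exp (-((γ - ε) * T)) * Real.exp (|γ - ε| * (k + 1)) := by
        calc ‖a‖ ^ (m - j) ≤ Real.exp (-((γ - ε) * δ)) ^ (m - j) :=
              pow_le_pow_left₀ (norm_nonneg _) ha _
          _ = Real.exp (((m - j : ℕ) : ℝ) * -((γ - ε) * δ)) := (Real.exp_nat_mul _ _).symm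
          _ ≤ Real.exp (-((γ - ε) * T) + |γ - ε| * (k + 1)) := by
              apply Real.exp_le_exp.2
              rw [Nat.cast_sub hjm]
              have d1 : 0 ≤ T - ((m : ℝ) - j) * δ := by
                have : 0 ≤ (j : ℝ) * δ := by positivity
                nlinarith
              have d2 : T - ((m : ℝ) - j) * δ ≤ k + 1 := by
                have h5 : (j : ℝ) ≤ k := by exact_mod_cast hjk'.le
                have h6 : (j : ℝ) * δ ≤ k * 1 :=
                  mul_le_mul h5 hδ.2.le hδ0.le (by positivity)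
                nlinarith [hδ.2]
              have d3 : (γ - ε) * (T - ((m : ℝ) - j) * δ) ≤ |γ - ε| * (k + 1) := by
                calc (γ - ε) * (T - ((m : ℝ) - j) * δ)
                    ≤ |γ - ε| * (T - ((m : ℝ) - j) * δ) :=
                      mul_le_mul_of_nonneg_right (le_abs_self _) d1
                  _ ≤ _ := mul_le_mul_of_nonneg_left d2 (abs_nonneg _)
              nlinarith
          _ = _ := Real.exp_add _ _
      calc δ ^ j * ‖a‖ ^ (m - j) * ((m.choose j : ℕ) : ℝ)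
          = (δ ^ j * ((m.choose j : ℕ) : ℝ)) * ‖a‖ ^ (m - j) := by ring
        _ ≤ (1 + T) ^ k * (Real.exp (-((γ - ε) * T)) * Real.exp (|γ - ε| * (k + 1))) :=
            mul_le_mul c2 c3 (by positivity) (by positivity)
        _ = _ := by ring
  refine (Finset.sum_le_sum hterm).trans ?_
  rw [← Finset.mul_sum]
  have hs : ∑ j ∈ range (m + 1), ‖(g ^ j) v‖ ≤ ∑ j ∈ range k, ‖(g ^ j) v‖ := by
    have h1 : ∑ j ∈ (range (m + 1)).filter (fun j => j < k), ‖(g ^ j) v‖ =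
        ∑ j ∈ range (m + 1), ‖(g ^ j) v‖ := by
      apply Finset.sum_filter_of_ne
      intro j _ hj
      by_contra hcon
      exact hj (by rw [hgj j (not_lt.1 hcon), norm_zero])
    rw [← h1]
    apply Finset.sum_le_sum_of_subset_of_nonneg
    · intro j hj
      exact Finset.mem_range.2 (Finset.mem_filter.1 hj).2
    · intro j _ _
      exact norm_nonneg _
  calc (1 + T) ^ k * Real.exp (-((γ - ε) * T)) * Real.exp (|γ - ε| * (k + 1)) *
        ∑ j ∈ range (m + 1), ‖(g ^ j) v‖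
      ≤ (1 + T) ^ k * Real.exp (-((γ - ε) * T)) * Real.exp (|γ - ε| * (k + 1)) *
        ∑ j ∈ range k, ‖(g ^ j) v‖ := mul_le_mul_of_nonneg_left hs (by positivity)
    _ = _ := by ring

/-- bounds for all vectors -/
theorem all_bd {V : Type} [NormedAddCommGroup V] [NormedSpace ℂ V] [FiniteDimensional ℂ V]
    (f : Module.End ℂ V) {γ ε : ℝ} (hε : 0 < ε)
    (hl : ∀ (l : ℂ) (x : V), x ≠ 0 → f x = l • x → γ ≤ 1 - l.re) (v : V) :
    ∃ (C : ℝ) (k : ℕ), 0 ≤ C ∧ ∀ᶠ δ : ℝ in 𝓝[>] (0 : ℝ), ∀ T : ℝ, 0 ≤ T →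
      ‖(((((1 - δ : ℝ) : ℂ) • (1 : Module.End ℂ V) + ((δ : ℝ) : ℂ) • f) ^ ⌊T / δ⌋₊ :
        Module.End ℂ V)) v‖ ≤ C * (1 + T) ^ k * Real.exp (-((γ - ε) * T)) := by
  have htop : v ∈ ⨆ l : ℂ, f.maxGenEigenspace l := by
    rw [Module.End.iSup_maxGenEigenspace_eq_top]
    trivial
  refine Submodule.iSup_induction (fun l : ℂ => f.maxGenEigenspace l) (motive := fun v =>
    ∃ (C : ℝ) (k : ℕ), 0 ≤ C ∧ ∀ᶠ δ : ℝ in 𝓝[>] (0 : ℝ), ∀ T : ℝ, 0 ≤ T →
      ‖(((((1 - δ : ℝ) : ℂ) • (1 : Module.End ℂ V) + ((δ : ℝ) : ℂ) • f) ^ ⌊T / δ⌋₊ :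
        Module.End ℂ V)) v‖ ≤ C * (1 + T) ^ k * Real.exp (-((γ - ε) * T))) htop ?_ ?_ ?_
  · intro l x hx
    rw [Module.End.mem_maxGenEigenspace] at hx
    obtain ⟨k, hk⟩ := hx
    by_cases hx0 : x = 0
    · refine ⟨0, 0, le_rfl, Filter.Eventually.of_forall fun δ T _ => ?_⟩
      rw [hx0, map_zero, norm_zero]
      simp
    · obtain ⟨u, hu, hgu⟩ := nilp _ k x hx0 hk
      have hfu : f u = l • u := by
        rw [LinearMap.sub_apply, LinearMap.smul_apply, Module.End.one_apply, sub_eq_zero] at hgu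
        exact hgu
      obtain ⟨C, hC, h⟩ := gen_bd f l hε (hl l u hu hfu) x k hk
      exact ⟨C, k, hC, h⟩
  · refine ⟨0, 0, le_rfl, Filter.Eventually.of_forall fun δ T _ => ?_⟩
    rw [map_zero, norm_zero]
    simp
  · rintro x y ⟨C, k, hC, h⟩ ⟨C', k', hC', h'⟩
    refine ⟨C + C', k + k', by positivity, ?_⟩
    filter_upwards [h, h'] with δ h1 h2 T hT
    rw [map_add]
    refine (norm_add_le _ _).trans ((add_le_add (h1 T hT) (h2 T hT)).trans ?_)
    have hT1 : 1 ≤ 1 + T := by linarith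
    have p1 : (1 + T) ^ k ≤ (1 + T) ^ (k + k') := pow_le_pow_right₀ hT1 (Nat.le_add_right _ _)
    have p2 : (1 + T) ^ k' ≤ (1 + T) ^ (k + k') := pow_le_pow_right₀ hT1 (Nat.le_add_left _ _)
    have hE := Real.exp_pos (-((γ - ε) * T))
    calc C * (1 + T) ^ k * Real.exp (-((γ - ε) * T)) + C' * (1 + T) ^ k' *
          Real.exp (-((γ - ε) * T))
        ≤ C * (1 + T) ^ (k + k') * Real.exp (-((γ - ε) * T)) + C' * (1 + T) ^ (k + k') *
          Real.exp (-((γ - ε) * T)) := by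
          refine add_le_add (mul_le_mul_of_nonneg_right (mul_le_mul_of_nonneg_left p1 hC) hE.le)
            (mul_le_mul_of_nonneg_right (mul_le_mul_of_nonneg_left p2 hC') hE.le)
      _ = _ := by ring

/-- the mean matrix, with another eigenvalue on the constant vectors -/
def W {d : ℕ} (μ : Equiv.Perm (Fin d) → ℝ) (c : ℝ) : Matrix (Fin d) (Fin d) ℝ :=
  fun i j => U μ i j - (1 + c) / d

def AW {d : ℕ} (μ : Equiv.Perm (Fin d) → ℝ) (c δ : ℝ) : Matrix (Fin d) (Fin d) ℝ :=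
  (1 - δ) • (1 : Matrix (Fin d) (Fin d) ℝ) + δ • W μ c

theorem vecMul_AU {d : ℕ} {μ : Equiv.Perm (Fin d) → ℝ} (h : IsProb μ) (c δ : ℝ)
    (y : Fin d → ℝ) (hy : ∑ i, y i = 0) :
    Matrix.vecMul y (AU μ δ) = Matrix.vecMul y (AW μ c δ) ∧
      ∑ j, Matrix.vecMul y (AU μ δ) j = 0 := by
  refine ⟨?_, ?_⟩
  · funext j
    have e : ∀ i, y i * AU μ δ i j = y i * AW μ c δ i j + y i * (δ * ((1 + c) / d)) := by
      intro i
      simp only [AU, AW, W, Matrix.add_apply, Matrix.smul_apply, smul_eq_mul]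
      ring
    change ∑ i, y i * AU μ δ i j = ∑ i, y i * AW μ c δ i j
    rw [Finset.sum_congr rfl fun i _ => e i, Finset.sum_add_distrib, ← Finset.sum_mul, hy,
      zero_mul, add_zero]
  · change ∑ j, ∑ i, y i * AU μ δ i j = 0
    rw [Finset.sum_comm]
    have e : ∀ i, ∑ j, y i * AU μ δ i j = y i := by
      intro i
      rw [← Finset.mul_sum]
      have : ∑ j, AU μ δ i j = 1 := by
        simp only [AU, Matrix.add_apply, Matrix.smul_apply, smul_eq_mul]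
        rw [Finset.sum_add_distrib, ← Finset.mul_sum, ← Finset.mul_sum, U_row h]
        simp [Matrix.one_apply]
      rw [this, mul_one]
    rw [Finset.sum_congr rfl fun i _ => e i, hy]

theorem vecMul_pow {d : ℕ} {μ : Equiv.Perm (Fin d) → ℝ} (h : IsProb μ) (c δ : ℝ) (m : ℕ) :
    ∀ y : Fin d → ℝ, ∑ i, y i = 0 →
    Matrix.vecMul y (AU μ δ ^ m) = Matrix.vecMul y (AW μ c δ ^ m) := by
  induction m with
  | zero => intro y _; rw [pow_zero, pow_zero]
  | succ m ih =>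
    intro y hy
    obtain ⟨h1, h2⟩ := vecMul_AU h c δ y hy
    rw [pow_succ', pow_succ', ← Matrix.vecMul_vecMul, ← Matrix.vecMul_vecMul, ih _ h2, h1]

/-- the complex matrix -/
def Wc {d : ℕ} (μ : Equiv.Perm (Fin d) → ℝ) (c : ℝ) : Matrix (Fin d) (Fin d) ℂ :=
  Complex.ofRealHom.mapMatrix (W μ c)

theorem Wc_mulVec {d : ℕ} (μ : Equiv.Perm (Fin d) → ℝ) (c : ℝ) (x : Fin d → ℂ) (i : Fin d) :
    (Wc μ c).mulVec x i = ((U μ).map (fun a => (a : ℂ))).mulVec x i -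
      (((1 + c) / d : ℝ) : ℂ) * ∑ j, x j := by
  change ∑ j, Wc μ c i j * x j = ∑ j, ((U μ i j : ℝ) : ℂ) * x j - _
  rw [Finset.mul_sum, ← Finset.sum_sub_distrib]
  refine Finset.sum_congr rfl fun j _ => ?_
  have : Wc μ c i j = ((U μ i j : ℝ) : ℂ) - (((1 + c) / d : ℝ) : ℂ) := by
    change ((U μ i j - (1 + c) / d : ℝ) : ℂ) = _
    rw [Complex.ofReal_sub]
  rw [this]
  ring

theorem eig {d : ℕ} {μ : Equiv.Perm (Fin d) → ℝ} (hd : 2 ≤ d) (h : IsProb μ) {z : ℂ}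
    (hz : ∀ (z' : ℂ) (v' : Fin d → ℂ), v' ≠ 0 → ∑ i, v' i = 0 →
      ((U μ).map (fun a => (a : ℂ))).mulVec v' = z' • v' → z'.re ≤ z.re) (l : ℂ)
    (x : Fin d → ℂ) (hx : x ≠ 0) (he : Matrix.toLin' (Wc μ |z.re|) x = l • x) :
    1 - z.re ≤ 1 - l.re := by
  have hd0 : (d : ℂ) ≠ 0 := by
    have : d ≠ 0 := by omega
    exact_mod_cast this
  rw [Matrix.toLin'_apply] at he
  by_cases hs : ∑ j, x j = 0
  · have h1 : ((U μ).map (fun a => (a : ℂ))).mulVec x = l • x := by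
      funext i
      rw [← he, Wc_mulVec, hs, mul_zero, sub_zero]
    have := hz l x hx hs h1
    linarith
  · have h1 : ∑ i, (Wc μ |z.re|).mulVec x i = l * ∑ j, x j := by
      rw [he, Finset.mul_sum]
      rfl
    have h2 : ∑ i, (Wc μ |z.re|).mulVec x i = -((|z.re| : ℝ) : ℂ) * ∑ j, x j := by
      rw [Finset.sum_congr rfl fun i _ => Wc_mulVec μ _ x i, Finset.sum_sub_distrib]
      have h3 : ∑ i, ((U μ).map (fun a => (a : ℂ))).mulVec x i = ∑ j, x j := by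
        change ∑ i, ∑ j, ((U μ i j : ℝ) : ℂ) * x j = _
        rw [Finset.sum_comm]
        refine Finset.sum_congr rfl fun j _ => ?_
        rw [← Finset.sum_mul, ← Complex.ofReal_sum, U_col h j]
        simp
      rw [h3, Finset.sum_const, Finset.card_univ, Fintype.card_fin, nsmul_eq_mul]
      push_cast
      field_simp
      ring
    rw [h2] at h1
    have h4 : l = -((|z.re| : ℝ) : ℂ) := (mul_right_cancel₀ hs h1).symm
    have h5 : l.re = -|z.re| := by rw [h4]; simp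
    have h6 := neg_abs_le z.re
    linarith

theorem entry {d : ℕ} (μ : Equiv.Perm (Fin d) → ℝ) (c δ : ℝ) (m : ℕ) (i j : Fin d) :
    ((((((1 - δ : ℝ) : ℂ) • (1 : Module.End ℂ (Fin d → ℂ)) +
      ((δ : ℝ) : ℂ) • Matrix.toLin' (Wc μ c)) ^ m : Module.End ℂ (Fin d → ℂ)))
      (Pi.single j (1 : ℂ))) i = (((AW μ c δ ^ m) i j : ℝ) : ℂ) := by
  have e1 : ((1 - δ : ℝ) : ℂ) • (1 : Module.End ℂ (Fin d → ℂ)) +
      ((δ : ℝ) : ℂ) • Matrix.toLin' (Wc μ c) =
      Matrix.toLin' (Complex.ofRealHom.mapMatrix (AW μ c δ)) := by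
    have e2 : Complex.ofRealHom.mapMatrix (AW μ c δ) =
        ((1 - δ : ℝ) : ℂ) • (1 : Matrix (Fin d) (Fin d) ℂ) + ((δ : ℝ) : ℂ) • Wc μ c := by
      ext a b
      simp only [AW, Wc, RingHom.mapMatrix_apply, Matrix.map_apply, Matrix.add_apply,
        Matrix.smul_apply, smul_eq_mul, Complex.ofRealHom_eq_coe, Complex.ofReal_add,
        Complex.ofReal_mul, Matrix.one_apply]
      split_ifs <;> simp
    rw [e2, map_add, map_smul, map_smul, Matrix.toLin'_one]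
    rfl
  rw [e1, ← Matrix.toLin'_pow, ← map_pow, Matrix.toLin'_apply, Matrix.mulVec_single_one]
  rfl

end SPECU

open SPECU in
theorem bk_specu (hgap : S_GAP) : S_SPECU := by
  intro d μ hd hμ hirr ε hε
  obtain ⟨_, z, _, _, _, _, hgz, hz⟩ := hgap d μ hd hμ hirr
  have hε2 : 0 < ε / 2 := by positivity
  have hbd := fun j : Fin d => all_bd (Matrix.toLin' (Wc μ |z.re|)) (γ := gap μ) (ε := ε / 2) hε2
    (fun l x hx he => by rw [hgz]; exact eig hd hμ hz l x hx he) (Pi.single j (1 : ℂ))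
  choose C k hC hev using hbd
  have hall := eventually_all.2 hev
  obtain ⟨K, hK⟩ : ∃ K : ℕ, K = ∑ j, k j := ⟨_, rfl⟩
  obtain ⟨CC, hCC⟩ : ∃ CC : ℝ, CC = d * ∑ j, C j := ⟨_, rfl⟩
  have hCC0 : 0 ≤ CC := by
    rw [hCC]
    exact mul_nonneg (Nat.cast_nonneg _) (Finset.sum_nonneg fun j _ => hC j)
  -- the choice of `T`
  obtain ⟨T, hT1, hT2⟩ : ∃ T : ℝ, 1 ≤ T ∧ CC * (1 + T) ^ K ≤ Real.exp (ε / 2 * T) := by
    have h1 := (isLittleO_pow_exp_pos_mul_atTop K hε2).bound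
      (show (0 : ℝ) < 1 / (CC * 2 ^ K + 1) by positivity)
    obtain ⟨T, hT, hT1⟩ := (h1.and (eventually_ge_atTop (1 : ℝ))).exists
    refine ⟨T, hT1, ?_⟩
    rw [Real.norm_eq_abs, Real.norm_eq_abs, abs_of_nonneg (by positivity),
      abs_of_pos (Real.exp_pos _), div_mul_eq_mul_div, one_mul,
      le_div_iff₀ (by positivity)] at hT
    have h2 : (1 + T) ^ K ≤ (2 * T) ^ K := pow_le_pow_left₀ (by linarith) (by linarith) K
    rw [mul_pow] at h2
    have h3 : 0 ≤ T ^ K := by positivity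
    calc CC * (1 + T) ^ K ≤ CC * (2 ^ K * T ^ K) := mul_le_mul_of_nonneg_left h2 hCC0
      _ ≤ T ^ K * (CC * 2 ^ K + 1) := by nlinarith
      _ ≤ _ := hT
  obtain ⟨δ0, hδ0, hδ⟩ := (mem_nhdsGT_iff_exists_Ioo_subset).1 hall
  refine ⟨T, δ0, hT1, hδ0, fun δ hd1 hd2 y hy => ?_⟩
  have hgood := hδ ⟨hd1, hd2⟩
  have hT0 : 0 ≤ T := by linarith
  have hE := Real.exp_pos (-((gap μ - ε / 2) * T))
  have hent : ∀ i j, |(AW μ |z.re| δ ^ ⌊T / δ⌋₊) i j| ≤
      C j * (1 + T) ^ K * Real.exp (-((gap μ - ε / 2) * T)) := by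
    intro i j
    have h1 := hgood j T hT0
    have h2 := norm_le_pi_norm ((((((1 - δ : ℝ) : ℂ) • (1 : Module.End ℂ (Fin d → ℂ)) +
      ((δ : ℝ) : ℂ) • Matrix.toLin' (Wc μ |z.re|)) ^ ⌊T / δ⌋₊ : Module.End ℂ (Fin d → ℂ)))
      (Pi.single j (1 : ℂ))) i
    rw [entry, Complex.norm_real, Real.norm_eq_abs] at h2
    refine h2.trans (h1.trans ?_)
    refine mul_le_mul_of_nonneg_right (mul_le_mul_of_nonneg_left ?_ (hC j)) hE.le
    refine pow_le_pow_right₀ (by linarith) ?_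
    rw [hK]
    exact Finset.single_le_sum (f := k) (fun _ _ => Nat.zero_le _) (Finset.mem_univ j)
  rw [vecMul_pow hμ |z.re| δ _ y hy]
  have hsum : ∀ i, ∑ j, |(AW μ |z.re| δ ^ ⌊T / δ⌋₊) i j| ≤
      (∑ j, C j) * (1 + T) ^ K * Real.exp (-((gap μ - ε / 2) * T)) := by
    intro i
    refine (Finset.sum_le_sum fun j _ => hent i j).trans (le_of_eq ?_)
    rw [Finset.sum_mul, Finset.sum_mul]
  have hone : (∑ j, C j) * (1 + T) ^ K * Real.exp (-((gap μ - ε / 2) * T)) ≤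
      Real.exp (-(gap μ - ε) * T) := by
    have h1 : ∑ j, C j ≤ CC := by
      rw [hCC]
      have h2 : 0 ≤ ∑ j, C j := Finset.sum_nonneg fun j _ => hC j
      have h3 : (1 : ℝ) ≤ d := by exact_mod_cast (by omega : 1 ≤ d)
      nlinarith
    have h2 : Real.exp (-(gap μ - ε) * T) =
        Real.exp (ε / 2 * T) * Real.exp (-((gap μ - ε / 2) * T)) := by
      rw [← Real.exp_add]
      congr 1
      ring
    rw [h2]
    refine mul_le_mul_of_nonneg_right ?_ hE.le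
    exact (mul_le_mul_of_nonneg_right h1 (by positivity)).trans hT2
  calc ∑ j, |Matrix.vecMul y (AW μ |z.re| δ ^ ⌊T / δ⌋₊) j|
      ≤ ∑ j, ∑ i, |y i| * |(AW μ |z.re| δ ^ ⌊T / δ⌋₊) i j| := by
        refine Finset.sum_le_sum fun j _ => ?_
        change |∑ i, y i * (AW μ |z.re| δ ^ ⌊T / δ⌋₊) i j| ≤ _
        refine (Finset.abs_sum_le_sum_abs _ _).trans (le_of_eq ?_)
        exact Finset.sum_congr rfl fun i _ => abs_mul _ _
    _ = ∑ i, |y i| * ∑ j, |(AW μ |z.re| δ ^ ⌊T / δ⌋₊) i j| := by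
        rw [Finset.sum_comm]
        exact Finset.sum_congr rfl fun i _ => (Finset.mul_sum _ _ _).symm
    _ ≤ ∑ i, |y i| * Real.exp (-(gap μ - ε) * T) :=
        Finset.sum_le_sum fun i _ =>
          mul_le_mul_of_nonneg_left ((hsum i).trans hone) (abs_nonneg _)
    _ = _ := by rw [← Finset.sum_mul, mul_comm]

end

end Pool.Agent.H117
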