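import Pool.Agent.H465.OC.StmB
import Pool.Graph.R_pool_sql_team_seeded_3997aac3.Q279.SC.J.COUNT

/-!
# Project OC (MP_f38b71_nt, Q1), task B15 for `p = 11`: finite computation
-/

set_option autoImplicit false

namespace Pool.Agent.H117.OCSmall11

open Pool.Agent.Q279.SC Pool.Agent.H465.OC

/-! ## Lists as polynomials -/

/-- the polynomial with coefficient list `a` -/
noncomputable def F (R : Type) [CommRing R] : List ℕ → PowerSeries R
  | [] => 0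
  | x :: xs => PowerSeries.C (x : R) + PowerSeries.X * F R xs

/-- `x * b + c` -/
def axpy (x : ℕ) : List ℕ → List ℕ → List ℕ
  | [], c => c
  | b :: bs, [] => (x * b) :: axpy x bs []
  | b :: bs, c :: cs => (x * b + c) :: axpy x bs cs

/-- product of polynomials -/
def mulL : List ℕ → List ℕ → List ℕ
  | [], _ => []
  | x :: xs, b => axpy x b (0 :: mulL xs b)

/-- reduction of the coefficients modulo `M`, truncation at `N` -/
def red (M N : ℕ) (a : List ℕ) : List ℕ := (a.take N).map (· % M)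

theorem F_axpy (R : Type) [CommRing R] (x : ℕ) (b c : List ℕ) :
    F R (axpy x b c) = PowerSeries.C (x : R) * F R b + F R c := by
  induction b generalizing c with
  | nil => simp [axpy, F]
  | cons b bs ih =>
    cases c with
    | nil =>
      simp only [axpy, F, ih, Nat.cast_mul, map_mul]
      ring
    | cons c cs =>
      simp only [axpy, F, ih, Nat.cast_mul, Nat.cast_add, map_mul, map_add]
      ring

theorem F_mulL (R : Type) [CommRing R] (a b : List ℕ) : F R (mulL a b) = F R a * F R b := by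
  induction a with
  | nil => simp [mulL, F]
  | cons x xs ih =>
    simp only [mulL, F_axpy, F, ih, Nat.cast_zero, map_zero]
    ring

theorem F_mod (M : ℕ) (a : List ℕ) : F (ZMod M) (a.map (· % M)) = F (ZMod M) a := by
  induction a with
  | nil => rfl
  | cons x xs ih =>
    simp only [List.map_cons, F, ih, ZMod.natCast_mod]

theorem F_take (R : Type) [CommRing R] (a : List ℕ) (N : ℕ) :
    (PowerSeries.X : PowerSeries R) ^ N ∣ F R (a.take N) - F R a := by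
  induction a generalizing N with
  | nil => simp
  | cons x xs ih =>
    cases N with
    | zero => simp
    | succ N =>
      obtain ⟨g, hg⟩ := ih N
      refine ⟨g, ?_⟩
      simp only [List.take_succ_cons, F]
      linear_combination PowerSeries.X * hg

theorem F_red (M N : ℕ) (a : List ℕ) :
    (PowerSeries.X : PowerSeries (ZMod M)) ^ N ∣ F (ZMod M) (red M N a) - F (ZMod M) a := by
  unfold red
  rw [F_mod]
  exact F_take _ a N

theorem coeff_F (R : Type) [CommRing R] (a : List ℕ) (k : ℕ) :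
    PowerSeries.coeff k (F R a) = ((a.getD k 0 : ℕ) : R) := by
  induction a generalizing k with
  | nil => simp [F]
  | cons x xs ih =>
    cases k with
    | zero => simp [F]
    | succ k =>
      simp only [F, map_add, PowerSeries.coeff_succ_X_mul, ih, List.getD_cons_succ]
      rw [PowerSeries.coeff_C, if_neg (by omega), zero_add]

theorem dvd_of_coeff {R : Type} [CommRing R] {N : ℕ} {f g : PowerSeries R}
    (h : ∀ k, k < N → PowerSeries.coeff k f = PowerSeries.coeff k g) :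
    (PowerSeries.X : PowerSeries R) ^ N ∣ f - g := by
  rw [PowerSeries.X_pow_dvd_iff]
  intro m hm
  rw [map_sub, h m hm, sub_self]

theorem coeff_of_dvd {R : Type} [CommRing R] {N : ℕ} {f g : PowerSeries R}
    (h : (PowerSeries.X : PowerSeries R) ^ N ∣ f - g) {k : ℕ} (hk : k < N) :
    PowerSeries.coeff k f = PowerSeries.coeff k g := by
  rw [PowerSeries.X_pow_dvd_iff] at h
  have := h k hk
  rw [map_sub, sub_eq_zero] at this
  exact this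

/-! ## The lists -/

def lA : List ℕ :=
  [0, 1, 9, 28, 73, 5, 10, 102, 101, 31, 45, 1, 108, 20, 71, 19, 83, 74, 37, 84, 2, 73, 9, 68, 45,
  21, 59, 112, 65, 69, 50, 26, 60, 28, 61, 26, 85, 76, 30, 76, 21, 73, 52, 11, 73, 34, 7, 6, 25,
  18, 68, 15, 8, 48, 40, 5, 17, 53, 16, 43, 56, 107, 113, 16, 118, 100, 10, 79, 78, 89, 113, 115,
  106, 3, 79, 104, 82, 102, 79, 86, 52, 0, 52, 63, 5, 7, 99, 117, 101, 24, 64, 104, 3, 2, 54, 57,
  107, 92, 41, 31, 81, 108, 14, 98, 84, 2, 69, 40, 69, 88, 45, 71, 117, 94, 114, 98, 76, 15, 24,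
  46, 104, 1]

def lA2 : List ℕ :=
  [0, 0, 1, 18, 16, 45, 51, 84, 64, 61, 2, 0, 22, 45, 48, 56, 65, 109, 35, 114, 104, 14, 1, 33,
  38, 74, 17, 18, 7, 40, 104, 10, 54, 18, 99, 20, 101, 70, 28, 84, 49, 4, 64, 66, 16, 44, 90, 40,
  87, 74, 8, 2, 102, 98, 14, 45, 77, 111, 26, 26, 108, 54, 106, 72, 75, 68, 51, 99, 16, 102, 65,
  23, 6, 73, 31, 29, 98, 84, 22, 67, 46, 0, 105, 87, 30, 59, 55, 69, 64, 11, 23, 70, 65, 84, 84,
  67, 47, 32, 5, 61, 77, 34, 31, 59, 41, 63, 106, 37, 35, 44, 2, 11, 35, 73, 94, 46, 117, 112, 9,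
  71, 21, 0]

def lA3 : List ℕ :=
  [0, 0, 0, 1, 27, 85, 40, 45, 46, 87, 80, 77, 101, 47, 112, 23, 52, 7, 119, 58, 12, 44, 88, 103,
  41, 2, 18, 104, 70, 2, 33, 40, 64, 45, 77, 115, 114, 103, 84, 114, 28, 109, 68, 85, 60, 15, 58,
  11, 65, 113, 46, 63, 38, 105, 82, 41, 20, 45, 11, 38, 7, 47, 116, 47, 71, 94, 73, 45, 94, 108,
  26, 116, 69, 81, 120, 37, 93, 12, 116, 51, 80, 116, 37, 16, 102, 13, 116, 76, 46, 78, 47, 40,
  117, 21, 97, 107, 8, 22, 6, 54, 61, 79, 22, 22, 106, 98, 30, 45, 84, 115, 47, 63, 17, 72, 77,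
  97, 50, 25, 63, 66, 82, 33]

def lB : List ℕ :=
  [0, 1, 33, 2, 89, 101, 66, 110, 66, 3, 66, 1, 57, 66, 0, 81, 56, 44, 99, 77, 35, 99, 33, 112,
  11, 58, 0, 4, 110, 77, 11, 68, 99, 2, 0, 99, 25, 68, 0, 11, 11, 33, 0, 99, 89, 61, 66, 35, 112,
  12, 99, 88, 66, 13, 11, 101, 0, 33, 0, 35, 70, 88, 66, 88, 23, 11, 66, 90, 44, 103, 0, 46, 77,
  11, 66, 116, 77, 110, 0, 22, 90, 5, 0, 110, 99, 88, 0, 33, 66, 79, 77, 0, 46, 15, 66, 33, 77,
  24, 33, 3, 80, 88, 0, 90, 0, 77, 66, 22, 114, 66, 66, 15, 110, 24, 0, 59, 77, 77, 66, 0, 22, 1]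

def lB2 : List ℕ :=
  [0, 0, 1, 66, 4, 68, 30, 15, 75, 103, 10, 110, 102, 32, 38, 98, 60, 87, 25, 78, 68, 42, 23, 45,
  25, 91, 33, 77, 120, 95, 88, 108, 74, 77, 100, 28, 61, 66, 113, 120, 21, 22, 56, 90, 103, 106,
  33, 74, 41, 87, 70, 66, 62, 50, 68, 57, 6, 4, 120, 80, 74, 64, 96, 20, 39, 30, 8, 69, 8, 10, 99,
  95, 51, 24, 88, 103, 7, 37, 104, 44, 108, 57, 93, 48, 15, 75, 62, 94, 75, 58, 98, 119, 65, 48,
  14, 94, 104, 54, 105, 4, 14, 29, 84, 54, 115, 28, 25, 116, 91, 26, 32, 9, 64, 26, 45, 60, 60,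
  84, 60, 88, 62, 99]

def lQ : List ℕ :=
  [0, 1, 23, 33, 42, 61, 83, 26, 10, 55, 27, 1, 48, 67, 80, 35, 37, 117, 53, 90, 112, 68, 23, 13,
  5, 93, 75, 49, 61, 114, 118, 111, 113, 33, 96, 119, 50, 31, 73, 28, 116, 90, 62, 22, 42, 80,
  112, 33, 106, 75, 76, 108, 62, 78, 13, 61, 118, 1, 47, 119, 44, 106, 15, 58, 113, 38, 83, 35,
  38, 77, 37, 105, 79, 48, 21, 111, 69, 26, 43, 89, 54, 13, 62, 40, 80, 24, 11, 68, 10, 46, 1, 3,
  18, 60, 61, 43, 29, 12, 117, 55, 30, 56, 26, 53, 35, 76, 37, 90, 65, 55, 27, 119, 2, 33, 108,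
  45, 6, 31, 109, 120, 36, 1]

def lD : List ℕ :=
  [0, 1, 97, 10, 101, 111, 2, 75, 22, 97, 119, 34, 42, 37, 15, 21, 18, 20, 92, 110, 79, 24, 31,
  76, 99, 73, 80, 93, 73, 99, 101, 73, 8, 98, 4, 97, 117, 102, 22, 7, 22, 113, 29, 27, 46, 119,
  112, 85, 59, 19, 63, 79, 107, 5, 67, 23, 77, 11, 44, 82, 64, 23, 63, 15, 91, 114, 68, 59, 84,
  34, 92, 107, 77, 114, 93, 4, 99, 9, 74, 67, 62, 34, 71, 93, 4, 42, 78, 22, 22, 4, 48, 113, 53,
  4, 17, 110, 80, 59, 28, 31, 113, 57, 40, 17, 88, 2, 1, 73, 76, 65, 53, 52, 19, 42, 99, 87, 77,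
  80, 89, 48, 99, 67]

def lE : List ℕ :=
  [1, 115, 79, 40, 22, 72, 111, 36, 36, 92, 82, 104, 18, 44, 101, 11, 108, 82, 93, 37, 51, 104,
  101, 11, 100, 20, 69, 43, 102, 50, 79, 7, 18, 51, 85, 11, 32, 44, 89, 3, 117, 69, 33, 46, 0, 83,
  90, 114, 11, 118, 46, 35, 25, 48, 119, 61, 57, 49, 7, 113, 57, 114, 29, 29, 108, 69, 89, 112,
  61, 68, 15, 110, 94, 89, 27, 33, 61, 58, 72, 1, 84, 40, 47, 54, 119, 78, 106, 2, 36, 90, 0, 17,
  68, 102, 29, 90, 100, 19, 8, 114, 71, 96, 112, 65, 108, 81, 13, 86, 60, 48, 104, 49, 66, 99, 70,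
  35, 64, 86, 65, 48, 61, 93]

def lR : List ℕ :=
  [1, 95, 40, 94, 80, 49, 10, 104, 26, 98, 33, 9, 117, 103, 54, 63, 37, 50, 100, 18, 37, 110, 35,
  46, 52, 104, 32, 93, 54, 48, 113, 28, 110, 6, 74, 24, 73, 62, 82, 92, 34, 6, 77, 77, 23, 58, 84,
  100, 13, 100, 28, 108, 69, 15, 99, 72, 7, 48, 40, 115, 48, 87, 18, 116, 43, 44, 101, 90, 69, 12,
  25, 42, 10, 38, 23, 83, 88, 46, 117, 79, 44, 84, 4, 90, 56, 55, 103, 44, 46, 7, 81, 23, 43, 115,
  14, 31, 25, 25, 11, 48, 40, 119, 62, 68, 56, 21, 56, 104, 99, 88, 16, 25, 84, 60, 17, 115, 17,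
  49, 7, 50, 0]

def lK1 : List ℕ :=
  [1, 114, 103, 30, 42, 82, 109, 82, 14, 116, 84, 70, 97, 7, 86, 111, 90, 62, 1, 48, 93, 80, 70,
  56, 1, 68, 110, 71, 29, 72, 99, 55, 10, 74, 81, 35, 36, 63, 67, 117, 95, 77, 4, 19, 75, 85, 99,
  29, 73, 99, 104, 77, 39, 43, 52, 38, 101, 38, 84, 31, 114, 91, 87, 14, 17, 76, 21, 53, 98, 34,
  44, 3, 17, 96, 55, 29, 83, 49, 119, 55, 22, 6, 97, 82, 115, 36, 28, 101, 14, 86, 73, 25, 15, 98,
  12, 101, 20, 81, 101, 83, 79, 39, 72, 48, 20, 79, 12, 13, 105, 104, 51, 118, 47, 57, 92, 69,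
  108, 6, 97, 0, 83]

def lC1 : List ℕ :=
  [1, 102, 46, 44, 50, 43, 13, 73, 104, 10, 110, 96, 33, 43, 66, 20, 83, 29, 2, 39, 10, 88, 77,
  117, 45, 86, 109, 30, 15, 56, 116, 25, 99, 50, 33, 105, 110, 34, 63, 100, 95, 33, 26, 0, 54, 47,
  75, 88, 41, 97, 27, 40, 60, 7, 55, 106, 2, 35, 108, 57, 84, 78, 42, 102, 39, 11, 84, 64, 98, 1,
  77, 5, 96, 41, 22, 67, 99, 120, 84, 57, 87, 91, 1, 17, 39, 83, 48, 44, 106, 22, 30, 50, 25, 15,
  27, 72, 98, 27, 66, 78, 23, 65, 8, 119, 84, 27, 109, 20, 96, 11, 78, 44, 0, 111, 13, 2, 61, 104,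
  104, 67, 0]

def lK2 : List ℕ :=
  [1, 113, 6, 20, 62, 92, 107, 7, 113, 19, 86, 36, 55, 91, 71, 90, 72, 42, 30, 59, 14, 56, 39,
  101, 23, 116, 30, 99, 77, 94, 119, 103, 2, 97, 77, 59, 40, 82, 45, 110, 73, 85, 96, 113, 29, 87,
  108, 65, 14, 80, 41, 119, 53, 38, 106, 15, 24, 27, 40, 70, 50, 68, 24, 120, 47, 83, 74, 115, 14,
  0, 73, 17, 61, 103, 83, 25, 105, 40, 45, 109, 81, 93, 26, 110, 111, 115, 71, 79, 113, 82, 25,
  33, 83, 94, 116, 112, 61, 22, 73, 52, 87, 103, 32, 31, 53, 77, 11, 61, 29, 39, 119, 66, 28, 15,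
  114, 103, 31, 47, 8, 73, 105]

def lC2 : List ℕ :=
  [1, 103, 11, 28, 52, 12, 101, 60, 77, 97, 38, 62, 23, 91, 90, 23, 17, 24, 51, 40, 34, 97, 51,
  37, 86, 15, 30, 40, 89, 0, 113, 36, 0, 110, 63, 100, 95, 72, 2, 63, 89, 105, 76, 41, 104, 59,
  90, 59, 35, 57, 68, 89, 24, 117, 18, 55, 96, 8, 99, 15, 29, 0, 116, 32, 15, 27, 120, 17, 90, 22,
  43, 19, 102, 32, 9, 106, 10, 15, 48, 32, 14, 105, 94, 39, 120, 72, 120, 69, 105, 65, 109, 115,
  18, 13, 17, 79, 59, 115, 77, 52, 24, 44, 83, 14, 26, 45, 10, 92, 77, 12, 65, 115, 85, 6, 35,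
  103, 22, 61, 29, 8, 14]

def lK3 : List ℕ :=
  [1, 112, 30, 10, 82, 102, 105, 53, 91, 43, 88, 2, 13, 54, 56, 69, 54, 22, 59, 70, 56, 32, 8, 25,
  45, 43, 71, 6, 4, 116, 18, 30, 115, 120, 73, 83, 44, 101, 23, 103, 51, 93, 67, 86, 104, 89, 117,
  101, 76, 61, 99, 40, 67, 33, 39, 113, 68, 16, 117, 109, 107, 45, 82, 105, 77, 90, 6, 56, 51, 87,
  102, 31, 105, 110, 111, 21, 6, 31, 92, 42, 19, 59, 76, 17, 107, 73, 114, 57, 91, 78, 98, 41, 30,
  90, 99, 2, 102, 84, 45, 21, 95, 46, 113, 14, 86, 75, 10, 109, 74, 95, 66, 14, 9, 94, 15, 16, 75,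
  88, 40, 25, 6]

def lC3 : List ℕ :=
  [1, 104, 99, 33, 36, 48, 45, 100, 12, 90, 113, 48, 115, 51, 116, 88, 91, 19, 39, 33, 45, 48, 60,
  70, 116, 54, 120, 99, 38, 72, 119, 94, 88, 7, 82, 63, 51, 80, 68, 43, 110, 95, 40, 11, 99, 91,
  95, 90, 66, 68, 21, 114, 104, 94, 42, 47, 56, 7, 19, 110, 2, 22, 17, 45, 67, 111, 55, 106, 1,
  59, 26, 118, 24, 49, 51, 15, 58, 108, 26, 77, 81, 1, 13, 113, 93, 108, 24, 14, 12, 82, 2, 25,
  97, 109, 98, 10, 72, 119, 25, 6, 19, 91, 51, 28, 58, 40, 82, 57, 6, 6, 36, 102, 85, 111, 102,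
  117, 39, 50, 64, 47, 9]

def lK4 : List ℕ :=
  [1, 111, 54, 0, 102, 112, 103, 99, 69, 67, 90, 89, 92, 17, 41, 48, 36, 2, 88, 81, 98, 8, 98, 70,
  67, 91, 112, 34, 52, 17, 38, 78, 107, 22, 69, 107, 48, 120, 1, 96, 29, 101, 38, 59, 58, 91, 5,
  16, 17, 42, 36, 82, 81, 28, 93, 90, 112, 5, 73, 27, 43, 22, 19, 90, 107, 97, 59, 118, 88, 53,
  10, 45, 28, 117, 18, 17, 28, 22, 18, 96, 78, 25, 5, 45, 103, 31, 36, 35, 69, 74, 50, 49, 98, 86,
  82, 13, 22, 25, 17, 111, 103, 110, 73, 118, 119, 73, 9, 36, 119, 30, 13, 83, 111, 52, 37, 50,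
  119, 8, 72, 98, 28]

def lC4 : List ℕ :=
  [1, 105, 68, 65, 102, 47, 10, 94, 1, 62, 42, 44, 38, 42, 25, 25, 81, 6, 56, 10, 27, 76, 81, 13,
  57, 9, 61, 58, 113, 25, 95, 12, 18, 108, 2, 31, 9, 90, 21, 21, 22, 75, 28, 24, 69, 107, 35, 110,
  75, 110, 25, 62, 119, 104, 82, 103, 116, 23, 46, 7, 118, 37, 31, 18, 25, 5, 26, 98, 32, 57, 22,
  16, 18, 112, 4, 84, 101, 74, 93, 41, 67, 63, 45, 21, 61, 6, 92, 32, 4, 99, 30, 115, 99, 41, 51,
  73, 102, 88, 20, 116, 2, 26, 4, 2, 63, 95, 51, 14, 20, 107, 15, 95, 24, 99, 85, 84, 51, 88, 99,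
  80, 59]

def lK5 : List ℕ :=
  [1, 110, 78, 111, 1, 1, 101, 24, 47, 91, 92, 55, 50, 101, 26, 27, 18, 103, 117, 92, 19, 105, 67,
  115, 89, 18, 32, 62, 100, 39, 58, 5, 99, 45, 65, 10, 52, 18, 100, 89, 7, 109, 9, 32, 12, 93, 14,
  52, 79, 23, 94, 3, 95, 23, 26, 67, 35, 115, 29, 66, 100, 120, 77, 75, 16, 104, 112, 59, 4, 19,
  39, 59, 72, 3, 46, 13, 50, 13, 65, 29, 16, 112, 55, 73, 99, 110, 79, 13, 47, 70, 2, 57, 45, 82,
  65, 24, 63, 87, 110, 80, 111, 53, 33, 101, 31, 71, 8, 84, 43, 86, 81, 31, 92, 10, 59, 84, 42,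
  49, 104, 50, 50]

def lC5 : List ℕ :=
  [1, 106, 39, 9, 11, 114, 8, 113, 75, 29, 36, 77, 3, 113, 59, 50, 53, 89, 81, 56, 20, 98, 49, 43,
  55, 30, 12, 103, 73, 13, 83, 102, 117, 52, 15, 80, 42, 73, 10, 81, 102, 57, 96, 115, 21, 62, 2,
  2, 46, 8, 73, 79, 49, 101, 55, 110, 54, 92, 77, 0, 98, 32, 97, 84, 21, 67, 115, 99, 73, 62, 74,
  38, 92, 47, 112, 82, 79, 13, 22, 37, 120, 98, 75, 10, 76, 92, 45, 53, 1, 108, 73, 21, 12, 31,
  74, 5, 102, 97, 115, 38, 1, 76, 112, 118, 77, 94, 57, 104, 96, 65, 120, 65, 94, 96, 32, 82, 1,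
  28, 18, 57, 108]

def lK6 : List ℕ :=
  [1, 109, 102, 101, 21, 11, 99, 70, 25, 115, 94, 21, 8, 64, 11, 6, 0, 83, 25, 103, 61, 81, 36,
  39, 111, 66, 73, 90, 27, 61, 78, 53, 91, 68, 61, 34, 56, 37, 78, 82, 106, 117, 101, 5, 87, 95,
  23, 88, 20, 4, 31, 45, 109, 18, 80, 44, 79, 104, 106, 105, 36, 97, 14, 60, 46, 111, 44, 0, 41,
  106, 68, 73, 116, 10, 74, 9, 72, 4, 112, 83, 75, 78, 105, 101, 95, 68, 1, 112, 25, 66, 75, 65,
  113, 78, 48, 35, 104, 28, 82, 49, 119, 117, 114, 84, 64, 69, 7, 11, 88, 21, 28, 100, 73, 89, 81,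
  118, 86, 90, 15, 2, 72]

def lC6 : List ℕ :=
  [1, 107, 12, 113, 32, 78, 108, 34, 83, 40, 67, 75, 71, 116, 31, 34, 53, 58, 44, 95, 95, 52, 24,
  43, 82, 64, 5, 117, 9, 63, 120, 36, 111, 94, 17, 20, 15, 65, 37, 26, 49, 11, 85, 47, 87, 70, 92,
  86, 87, 33, 6, 69, 21, 62, 54, 14, 41, 23, 17, 44, 102, 68, 115, 8, 99, 89, 95, 79, 36, 85, 99,
  19, 71, 118, 93, 34, 119, 99, 52, 96, 9, 51, 46, 43, 94, 112, 78, 1, 59, 64, 104, 34, 74, 89,
  17, 104, 33, 65, 105, 115, 79, 82, 47, 37, 19, 33, 56, 110, 3, 84, 20, 34, 64, 74, 80, 79, 96,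
  113, 31, 104, 45]

def lK7 : List ℕ :=
  [1, 108, 5, 91, 41, 21, 97, 116, 3, 18, 96, 108, 87, 27, 117, 106, 103, 63, 54, 114, 103, 57, 5,
  84, 12, 114, 114, 118, 75, 83, 98, 101, 83, 91, 57, 58, 60, 56, 56, 75, 84, 4, 72, 99, 41, 97,
  32, 3, 82, 106, 89, 87, 2, 13, 13, 21, 2, 93, 62, 23, 93, 74, 72, 45, 76, 118, 97, 62, 78, 72,
  97, 87, 39, 17, 102, 5, 94, 116, 38, 16, 13, 44, 34, 8, 91, 26, 44, 90, 3, 62, 27, 73, 60, 74,
  31, 46, 24, 90, 54, 18, 6, 60, 74, 67, 97, 67, 6, 59, 12, 77, 96, 48, 54, 47, 103, 31, 9, 10,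
  47, 75, 94]

def lC7 : List ℕ :=
  [1, 108, 108, 20, 95, 96, 35, 18, 85, 56, 103, 67, 78, 77, 0, 39, 45, 45, 46, 23, 53, 69, 101,
  16, 20, 106, 55, 18, 111, 60, 104, 107, 80, 67, 55, 24, 84, 7, 23, 57, 94, 100, 3, 113, 61, 118,
  55, 53, 58, 41, 21, 70, 37, 82, 116, 77, 71, 71, 28, 2, 80, 25, 65, 10, 107, 54, 113, 73, 12,
  11, 82, 91, 35, 59, 111, 32, 96, 97, 15, 69, 57, 19, 95, 120, 10, 60, 70, 17, 24, 49, 120, 27,
  43, 83, 77, 76, 100, 114, 10, 51, 51, 4, 110, 100, 90, 13, 26, 97, 40, 15, 61, 91, 53, 100, 33,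
  71, 116, 46, 26, 13, 82]

def lK8 : List ℕ :=
  [1, 107, 29, 81, 61, 31, 95, 41, 102, 42, 98, 74, 45, 111, 102, 85, 85, 43, 83, 4, 24, 33, 95,
  8, 34, 41, 34, 25, 2, 105, 118, 28, 75, 114, 53, 82, 64, 75, 34, 68, 62, 12, 43, 72, 116, 99,
  41, 39, 23, 87, 26, 8, 16, 8, 67, 119, 46, 82, 18, 62, 29, 51, 9, 30, 106, 4, 29, 3, 115, 38, 5,
  101, 83, 24, 9, 1, 116, 107, 85, 70, 72, 10, 84, 36, 87, 105, 87, 68, 102, 58, 100, 81, 7, 70,
  14, 57, 65, 31, 26, 108, 14, 3, 34, 50, 9, 65, 5, 107, 57, 12, 43, 117, 35, 5, 4, 65, 53, 51,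
  79, 27, 116]

def lC8 : List ℕ :=
  [1, 109, 85, 99, 33, 47, 94, 94, 71, 80, 49, 77, 111, 69, 26, 115, 67, 45, 40, 5, 105, 72, 57,
  92, 23, 113, 83, 118, 99, 61, 83, 106, 51, 91, 104, 29, 94, 32, 69, 60, 116, 25, 112, 0, 101,
  23, 75, 27, 44, 50, 48, 95, 100, 52, 44, 103, 9, 68, 103, 28, 43, 113, 59, 84, 34, 103, 50, 15,
  97, 58, 58, 46, 52, 112, 75, 110, 107, 74, 33, 5, 24, 21, 57, 1, 95, 28, 62, 118, 2, 92, 78, 57,
  11, 103, 12, 68, 39, 117, 91, 13, 13, 29, 14, 79, 68, 113, 56, 19, 14, 92, 17, 72, 66, 24, 48,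
  49, 67, 46, 77, 80, 69]

def lK9 : List ℕ :=
  [1, 106, 53, 71, 81, 41, 93, 87, 80, 66, 100, 40, 3, 74, 87, 64, 67, 23, 112, 15, 66, 9, 64, 53,
  56, 89, 75, 53, 50, 6, 17, 76, 67, 16, 49, 106, 68, 94, 12, 61, 40, 20, 14, 45, 70, 101, 50, 75,
  85, 68, 84, 50, 30, 3, 0, 96, 90, 71, 95, 101, 86, 28, 67, 15, 15, 11, 82, 65, 31, 4, 34, 115,
  6, 31, 37, 118, 17, 98, 11, 3, 10, 97, 13, 64, 83, 63, 9, 46, 80, 54, 52, 89, 75, 66, 118, 68,
  106, 93, 119, 77, 22, 67, 115, 33, 42, 63, 4, 34, 102, 68, 111, 65, 16, 84, 26, 99, 97, 92, 111,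
  100, 17]

def lC9 : List ℕ :=
  [1, 110, 64, 114, 66, 15, 31, 17, 23, 86, 26, 90, 49, 109, 91, 80, 15, 5, 2, 41, 107, 88, 84,
  101, 17, 105, 0, 101, 87, 91, 94, 71, 113, 10, 56, 34, 99, 50, 95, 93, 55, 43, 111, 16, 73, 48,
  35, 101, 8, 11, 34, 30, 105, 9, 66, 65, 94, 24, 94, 74, 69, 70, 74, 99, 63, 27, 2, 57, 41, 63,
  118, 79, 9, 120, 106, 43, 69, 6, 104, 0, 82, 29, 87, 53, 118, 11, 9, 57, 99, 78, 109, 116, 99,
  111, 90, 89, 25, 107, 26, 61, 89, 38, 69, 42, 65, 30, 24, 51, 77, 36, 65, 57, 8, 8, 99, 37, 105,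
  114, 10, 92, 16]

def lK10 : List ℕ :=
  [1, 105, 77, 61, 101, 51, 91, 12, 58, 90, 102, 6, 82, 37, 72, 43, 49, 3, 20, 26, 108, 106, 33,
  98, 78, 16, 116, 81, 98, 28, 37, 3, 59, 39, 45, 9, 72, 113, 111, 54, 18, 28, 106, 18, 24, 103,
  59, 111, 26, 49, 21, 92, 44, 119, 54, 73, 13, 60, 51, 19, 22, 5, 4, 0, 45, 18, 14, 6, 68, 91,
  63, 8, 50, 38, 65, 114, 39, 89, 58, 57, 69, 63, 63, 92, 79, 21, 52, 24, 58, 50, 4, 97, 22, 62,
  101, 79, 26, 34, 91, 46, 30, 10, 75, 16, 75, 61, 3, 82, 26, 3, 58, 13, 118, 42, 48, 12, 20, 12,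
  22, 52, 39]

def lC10 : List ℕ :=
  [1, 111, 45, 71, 75, 46, 66, 84, 33, 76, 9, 21, 82, 34, 103, 34, 16, 116, 20, 47, 64, 86, 48,
  52, 73, 16, 32, 24, 2, 34, 109, 63, 20, 100, 68, 16, 83, 81, 76, 91, 45, 112, 62, 56, 20, 45,
  64, 92, 20, 67, 107, 88, 67, 56, 70, 91, 51, 7, 33, 12, 86, 84, 85, 90, 61, 7, 44, 105, 33, 47,
  106, 120, 8, 99, 56, 21, 110, 50, 31, 38, 24, 77, 27, 54, 33, 53, 54, 107, 108, 79, 113, 83,
  120, 22, 19, 107, 44, 105, 44, 32, 69, 118, 62, 79, 67, 108, 116, 97, 62, 57, 104, 114, 30, 107,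
  27, 30, 8, 79, 41, 25, 4]

/-! ## Checks -/

/-- the lists of the denominators -/
def lK : ℕ → List ℕ
  | 1 => lK1
  | 2 => lK2
  | 3 => lK3
  | 4 => lK4
  | 5 => lK5
  | 6 => lK6
  | 7 => lK7
  | 8 => lK8
  | 9 => lK9
  | 10 => lK10
  | _ => []

/-- the lists of the solutions -/
def lC : ℕ → List ℕ
  | 1 => lC1
  | 2 => lC2
  | 3 => lC3
  | 4 => lC4
  | 5 => lC5
  | 6 => lC6
  | 7 => lC7
  | 8 => lC8
  | 9 => lC9
  | 10 => lC10
  | _ => []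

theorem chkA : ∀ k ∈ List.range 122, (∑ d ∈ Nat.divisors k, d ^ 3) % 121 = lA.getD k 0 := by
  decide +kernel

theorem chkB : ∀ k ∈ List.range 122, (∑ d ∈ Nat.divisors k, d ^ 5) % 121 = lB.getD k 0 := by
  decide +kernel

theorem chkQ : ∀ k ∈ List.range 122,
    (∑ d ∈ Nat.divisors k, ((5 * (d : ℤ) ^ 3 + 7 * (d : ℤ) ^ 5) / 12)) % 121 =
      ((lQ.getD k 0 : ℕ) : ℤ) := by
  decide +kernel

theorem chkA2 : red 121 122 (mulL lA lA) = lA2 := by decide +kernel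

theorem chkA3 : red 121 122 (mulL lA2 lA) = lA3 := by decide +kernel

theorem chkB2 : red 121 122 (mulL lB lB) = lB2 := by decide +kernel

theorem chkD : red 121 122 (axpy 100 lA2 (axpy 8000 lA3 (axpy 95 lB2 lQ))) = lD := by
  decide +kernel

theorem chkE : red 121 122 (axpy 720 lA (axpy 172800 lA2 (axpy 13824000 lA3 [1]))) = lE := by
  decide +kernel

theorem chkR : red 121 121 (axpy 240 (mulL lA lD.tail) lD.tail) = lR := by decide +kernel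

theorem chkK : ∀ n ∈ List.range 11, n = 0 ∨ red 121 121 (axpy (121 - n) lD lE) = lK n := by
  decide +kernel

theorem chkC : ∀ n ∈ List.range 11, n = 0 ∨ red 121 121 (mulL (lC n) (lK n)) = lR := by
  decide +kernel

theorem chkK0 : ∀ n ∈ List.range 11, n = 0 ∨ (lK n).getD 0 0 = 1 := by decide +kernel

/-- the squares of the traces -/
def tA : ℕ → ℕ
  | 2 => 16
  | 3 => 36
  | 4 => 9
  | 5 => 25
  | 6 => 1
  | 7 => 4
  | 8 => 16
  | 9 => 4
  | 10 => 9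
  | _ => 0

theorem chkT : ∀ n ∈ List.range 11, ∀ s ∈ List.range 7, n = 0 ∨ s = 0 ∨
    (((s : ℕ) : ZMod 121) ^ 2 - 22) * (((lC n).getD 10 0 : ℕ) : ZMod 121) ≠
      (((lC n).getD 120 0 : ℕ) : ZMod 121) ∨ s ^ 2 = tA n := by decide +kernel

/-- the number of affine points of `y^2 = x^3 - 27 u x - 54 v` -/
def cnt (u v : ZMod 11) : ℕ :=
  ((Finset.univ : Finset (ZMod 11 × ZMod 11)).filter
    (fun P => P.2 ^ 2 = P.1 ^ 3 - 27 * u * P.1 - 54 * v)).card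

theorem chkP : ∀ u v : ZMod 11, ∀ n ∈ List.range 11, u = 0 ∨ v = 0 ∨ u ^ 3 = v ^ 2 ∨
    ((n : ℕ) : ZMod 11) * (u ^ 3 - v ^ 2) ≠ 1728 * u ^ 3 ∨
      ((11 : ℤ) - (cnt u v : ℤ)) ^ 2 = (tA n : ℤ) := by
  decide +kernel

/-! ## The power series -/

theorem q4Z : q4 ℤ = z4 := by
  unfold q4
  rw [show Int.castRingHom ℤ = RingHom.id ℤ from RingHom.ext_int _ _, PowerSeries.map_id]
  rfl

theorem qDZ : qD ℤ = zD := by
  unfold qD
  rw [show Int.castRingHom ℤ = RingHom.id ℤ from RingHom.ext_int _ _, PowerSeries.map_id]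
  rfl

theorem qdZ : qd ℤ = zd := by
  unfold qd
  rw [show Int.castRingHom ℤ = RingHom.id ℤ from RingHom.ext_int _ _, PowerSeries.map_id]
  rfl

/-- reduction modulo `121` -/
noncomputable def rd : PowerSeries ℤ →+* PowerSeries (ZMod 121) :=
  PowerSeries.map (Int.castRingHom (ZMod 121))

theorem coeff_rd (f : PowerSeries ℤ) (k : ℕ) :
    PowerSeries.coeff k (rd f) = ((PowerSeries.coeff k f : ℤ) : ZMod 121) := by
  unfold rd
  rw [PowerSeries.coeff_map]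
  rfl

theorem hA : (PowerSeries.X : PowerSeries (ZMod 121)) ^ 122 ∣ rd zA - F (ZMod 121) lA := by
  apply dvd_of_coeff
  intro k hk
  rw [coeff_rd, coeff_F, ← chkA k (List.mem_range.2 hk), ZMod.natCast_mod]
  unfold zA
  rw [PowerSeries.coeff_mk, Int.cast_natCast]

theorem hB : (PowerSeries.X : PowerSeries (ZMod 121)) ^ 122 ∣ rd zB - F (ZMod 121) lB := by
  apply dvd_of_coeff
  intro k hk
  rw [coeff_rd, coeff_F, ← chkB k (List.mem_range.2 hk), ZMod.natCast_mod]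
  unfold zB
  rw [PowerSeries.coeff_mk, Int.cast_natCast]

theorem hQ : (PowerSeries.X : PowerSeries (ZMod 121)) ^ 122 ∣ rd zQ - F (ZMod 121) lQ := by
  apply dvd_of_coeff
  intro k hk
  rw [coeff_rd, coeff_F]
  unfold zQ
  rw [PowerSeries.coeff_mk]
  have h := chkQ k (List.mem_range.2 hk)
  have h2 : ((lQ.getD k 0 : ℕ) : ZMod 121) = (((lQ.getD k 0 : ℕ) : ℤ) : ZMod 121) := by
    rw [Int.cast_natCast]
  rw [h2, ← h]
  exact (ZMod.intCast_mod _ 121).symm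

/-- the quotient modulo `X^N` -/
noncomputable def qt (N : ℕ) : PowerSeries (ZMod 121) →+*
    (PowerSeries (ZMod 121) ⧸ Ideal.span {(PowerSeries.X : PowerSeries (ZMod 121)) ^ N}) :=
  Ideal.Quotient.mk _

theorem qt_eq {N : ℕ} {f g : PowerSeries (ZMod 121)} :
    qt N f = qt N g ↔ (PowerSeries.X : PowerSeries (ZMod 121)) ^ N ∣ f - g := by
  unfold qt
  rw [Ideal.Quotient.eq, Ideal.mem_span_singleton]

theorem qt_red (N : ℕ) (a : List ℕ) : qt N (F (ZMod 121) (red 121 N a)) = qt N (F (ZMod 121) a) :=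
  qt_eq.2 (F_red 121 N a)

theorem qA2 : qt 122 (F (ZMod 121) lA2) = qt 122 (F (ZMod 121) lA) ^ 2 := by
  rw [← chkA2, qt_red, F_mulL, map_mul, sq]

theorem qA3 : qt 122 (F (ZMod 121) lA3) = qt 122 (F (ZMod 121) lA) ^ 3 := by
  rw [← chkA3, qt_red, F_mulL, map_mul, qA2]
  ring

theorem qB2 : qt 122 (F (ZMod 121) lB2) = qt 122 (F (ZMod 121) lB) ^ 2 := by
  rw [← chkB2, qt_red, F_mulL, map_mul, sq]

theorem C_nat (N m : ℕ) : qt N (PowerSeries.C ((m : ℕ) : ZMod 121)) = (m : ℕ) := by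
  rw [map_natCast, map_natCast]

theorem n121 (N : ℕ) : ((121 : ℕ) : PowerSeries (ZMod 121) ⧸
    Ideal.span {(PowerSeries.X : PowerSeries (ZMod 121)) ^ N}) = 0 := by
  rw [← C_nat N 121, ZMod.natCast_self, map_zero, map_zero]

theorem qD' : qt 122 (rd zD) = qt 122 (F (ZMod 121) lD) := by
  have e1 : qt 122 (rd zA) = qt 122 (F (ZMod 121) lA) := qt_eq.2 hA
  have e2 : qt 122 (rd zB) = qt 122 (F (ZMod 121) lB) := qt_eq.2 hB
  have e3 : qt 122 (rd zQ) = qt 122 (F (ZMod 121) lQ) := qt_eq.2 hQ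
  have h0 := n121 122
  push_cast at h0
  rw [← chkD, qt_red, F_axpy, F_axpy, F_axpy]
  simp only [map_add, map_mul, C_nat, qA2, qA3, qB2]
  unfold zD
  simp only [map_add, map_sub, map_mul, map_pow, e1, e2, e3, map_ofNat]
  push_cast
  linear_combination (-2 * qt 122 (F (ZMod 121) lB) ^ 2) * h0

theorem hd : (PowerSeries.X : PowerSeries (ZMod 121)) ^ 121 ∣ rd zd - F (ZMod 121) lD.tail := by
  apply dvd_of_coeff
  intro k hk
  have h := coeff_of_dvd (qt_eq.1 qD') (k := k + 1) (by omega)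
  rw [coeff_rd, coeff_F] at h
  rw [coeff_rd, coeff_F]
  unfold zd
  rw [PowerSeries.coeff_mk, h]
  rfl

theorem down {f g : PowerSeries (ZMod 121)} (h : qt 122 f = qt 122 g) : qt 121 f = qt 121 g :=
  qt_eq.2 (dvd_trans (pow_dvd_pow _ (by omega)) (qt_eq.1 h))

theorem coeffs (n : ℕ) (h0 : 0 < n) (hn : n < 11) (Φ : PowerSeries ℤ)
    (hΦ : Φ * (q4 ℤ ^ 3 - PowerSeries.C (n : ℤ) * qD ℤ) = q4 ℤ * qd ℤ) (k : ℕ) (hk : k < 121) :
    ((PowerSeries.coeff k Φ : ℤ) : ZMod 121) = (((lC n).getD k 0 : ℕ) : ZMod 121) := by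
  have hmem : n ∈ List.range 11 := List.mem_range.2 hn
  rw [q4Z, qDZ, qdZ] at hΦ
  have h1 : rd Φ * (rd z4 ^ 3 - (n : PowerSeries (ZMod 121)) * rd zD) = rd z4 * rd zd := by
    have h := congrArg rd hΦ
    rw [map_mul, map_sub, map_pow, map_mul, map_mul] at h
    rw [← h]
    congr 3
    rw [show (PowerSeries.C (n : ℤ) : PowerSeries ℤ) = ((n : ℕ) : PowerSeries ℤ) from by
      rw [map_natCast], map_natCast]
  have e1 : qt 121 (rd zA) = qt 121 (F (ZMod 121) lA) := down (qt_eq.2 hA)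
  have e2 : qt 121 (rd zD) = qt 121 (F (ZMod 121) lD) := down qD'
  have e3 : qt 121 (rd zd) = qt 121 (F (ZMod 121) lD.tail) := qt_eq.2 hd
  have e4 : rd z4 = 1 + 240 * rd zA := by
    unfold z4
    rw [map_add, map_mul, map_one, map_ofNat]
  have h121 := n121 121
  push_cast at h121
  -- the right side
  have eR : qt 121 (rd z4 * rd zd) = qt 121 (F (ZMod 121) lR) := by
    rw [← chkR, qt_red, F_axpy, F_mulL, e4]
    simp only [map_add, map_mul, C_nat, e1, e3, map_ofNat, map_one]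
    push_cast
    ring
  -- the denominator
  have eE : qt 121 (rd z4 ^ 3) = qt 121 (F (ZMod 121) lE) := by
    apply down
    have e1' : qt 122 (rd zA) = qt 122 (F (ZMod 121) lA) := qt_eq.2 hA
    rw [← chkE, qt_red, F_axpy, F_axpy, F_axpy, e4]
    have e5 : F (ZMod 121) [1] = 1 := by simp [F]
    rw [e5]
    simp only [map_add, map_mul, map_pow, C_nat, e1', qA2, qA3, map_ofNat, map_one]
    push_cast
    ring
  have eK : qt 121 (rd z4 ^ 3 - (n : PowerSeries (ZMod 121)) * rd zD) =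
      qt 121 (F (ZMod 121) (lK n)) := by
    rcases chkK n hmem with h | h
    · omega
    rw [← h, qt_red, F_axpy]
    simp only [map_sub, map_add, map_mul, eE, e2, map_natCast]
    have h5 : ((121 - n : ℕ) : PowerSeries (ZMod 121) ⧸
        Ideal.span {(PowerSeries.X : PowerSeries (ZMod 121)) ^ 121}) = - (n : ℕ) := by
      rw [Nat.cast_sub (by omega)]
      push_cast
      linear_combination h121
    rw [h5]
    ring
  have eC : qt 121 (F (ZMod 121) (lC n)) * qt 121 (F (ZMod 121) (lK n)) =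
      qt 121 (F (ZMod 121) lR) := by
    rcases chkC n hmem with h | h
    · omega
    rw [← h, qt_red, F_mulL, map_mul]
  have hu : IsUnit (F (ZMod 121) (lK n)) := by
    rw [PowerSeries.isUnit_iff_constantCoeff, ← PowerSeries.coeff_zero_eq_constantCoeff_apply,
      coeff_F]
    rcases chkK0 n hmem with h | h
    · omega
    rw [h, Nat.cast_one]
    exact isUnit_one
  have hu2 : IsUnit (qt 121 (F (ZMod 121) (lK n))) := hu.map _
  have h2 : qt 121 (rd Φ) * qt 121 (F (ZMod 121) (lK n)) =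
      qt 121 (F (ZMod 121) (lC n)) * qt 121 (F (ZMod 121) (lK n)) := by
    rw [eC, ← eR, ← h1, map_mul, eK]
  have h3 := hu2.mul_right_cancel h2
  have h4 := coeff_of_dvd (qt_eq.1 h3) hk
  rw [coeff_rd, coeff_F] at h4
  exact h4

/-! ## The number of points -/

theorem card_cnt (V : WeierstrassCurve (ZMod 11)) :
    Nat.card {xy : ZMod 11 × ZMod 11 // xy.2 ^ 2 + V.a₁ * xy.1 * xy.2 +
      V.a₃ * xy.2 = xy.1 ^ 3 + V.a₂ * xy.1 ^ 2 + V.a₄ * xy.1 + V.a₆} = cnt V.c₄ V.c₆ := by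
  have h11 : (11 : ZMod 11) = 0 := by decide
  have e : {xy : ZMod 11 × ZMod 11 // xy.2 ^ 2 + V.a₁ * xy.1 * xy.2 +
      V.a₃ * xy.2 = xy.1 ^ 3 + V.a₂ * xy.1 ^ 2 + V.a₄ * xy.1 + V.a₆} ≃
      {P : ZMod 11 × ZMod 11 // P.2 ^ 2 = P.1 ^ 3 - 27 * V.c₄ * P.1 - 54 * V.c₆} :=
    Equiv.subtypeEquiv
      { toFun := fun P => (36 * P.1 + 3 * V.b₂, 108 * (2 * P.2 + V.a₁ * P.1 + V.a₃))
        invFun := fun P => (4 * (P.1 - 3 * V.b₂),
          8 * (P.2 - 108 * V.a₁ * (4 * (P.1 - 3 * V.b₂)) - 108 * V.a₃))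
        left_inv := fun P => by
          apply Prod.ext
          · simp only
            linear_combination (13 * P.1) * h11
          · simp only
            linear_combination (157 * P.2 - 8 * 108 * V.a₁ * 13 * P.1) * h11
        right_inv := fun P => by
          apply Prod.ext
          · simp only
            linear_combination (13 * (P.1 - 3 * V.b₂)) * h11
          · simp only
            linear_combination (157 * (P.2 - 108 * V.a₁ * (4 * (P.1 - 3 * V.b₂)) -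
              108 * V.a₃)) * h11 }
      (fun P => by
        simp only [Equiv.coe_fn_mk]
        unfold WeierstrassCurve.c₄ WeierstrassCurve.c₆ WeierstrassCurve.b₂ WeierstrassCurve.b₄
          WeierstrassCurve.b₆
        constructor
        · intro h
          linear_combination 46656 * h
        · intro h
          linear_combination 9 * h - (38173 * (P.2 ^ 2 + V.a₁ * P.1 * P.2 + V.a₃ * P.2 -
            (P.1 ^ 3 + V.a₂ * P.1 ^ 2 + V.a₄ * P.1 + V.a₆))) * h11)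
  rw [Nat.card_congr e, Nat.card_eq_fintype_card, Fintype.card_subtype]
  rfl

theorem ne1728 : (1728 : ZMod 11) ≠ 0 := by decide

theorem main : Pool.Agent.H465.OC.Small 11 := by
  intro W hD h4 h6 hap n hn0 hn hdvd Φ hΦ t ht htp hcong
  have : Fact (Nat.Prime 11) := ⟨by norm_num⟩
  have hmem : n ∈ List.range 11 := List.mem_range.2 hn
  push_cast at hD h4 h6 hap hdvd ht htp hcong
  obtain ⟨V, hV⟩ : ∃ V, V = W.map (Int.castRingHom (ZMod 11)) := ⟨_, rfl⟩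
  have hVD : ((W.Δ : ℤ) : ZMod 11) = V.Δ := by
    rw [hV, WeierstrassCurve.map_Δ]; rfl
  have hc4 : ((W.c₄ : ℤ) : ZMod 11) = V.c₄ := by
    rw [hV, WeierstrassCurve.map_c₄]; rfl
  have hc6 : ((W.c₆ : ℤ) : ZMod 11) = V.c₆ := by
    rw [hV, WeierstrassCurve.map_c₆]; rfl
  have hD' : V.Δ ≠ 0 := by
    rw [← hVD]
    intro h0
    exact hD ((ZMod.intCast_zmod_eq_zero_iff_dvd _ _).1 h0)
  have h4' : V.c₄ ≠ 0 := by
    rw [← hc4]
    intro h0
    exact h4 ((ZMod.intCast_zmod_eq_zero_iff_dvd _ _).1 h0)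
  have h6' : V.c₆ ≠ 0 := by
    rw [← hc6]
    intro h0
    exact h6 ((ZMod.intCast_zmod_eq_zero_iff_dvd _ _).1 h0)
  have hn' : ((n : ℕ) : ZMod 11) * V.Δ = V.c₄ ^ 3 := by
    have h := (ZMod.intCast_zmod_eq_zero_iff_dvd _ 11).2 hdvd
    push_cast at h
    rw [hVD, hc4] at h
    linear_combination h
  have hrel : 1728 * V.Δ = V.c₄ ^ 3 - V.c₆ ^ 2 := V.c_relation
  have hne : V.c₄ ^ 3 ≠ V.c₆ ^ 2 := by
    intro h
    rw [h, sub_self] at hrel
    rcases mul_eq_zero.1 hrel with h | h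
    · exact absurd h ne1728
    · exact hD' h
  have hap' : ap W 11 = 11 - (cnt V.c₄ V.c₆ : ℤ) := by
    unfold ap
    rw [← hV, JCOUNT.card_pt V hD', card_cnt]
    push_cast
    ring
  have hsq : ap W 11 ^ 2 = (tA n : ℤ) := by
    rw [hap']
    rcases chkP V.c₄ V.c₆ n hmem with h | h | h | h | h
    · exact absurd h h4'
    · exact absurd h h6'
    · exact absurd h hne
    · exfalso
      apply h
      rw [← hrel, ← hn']
      ring
    · exact h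
  rw [hsq]
  -- the coefficients
  have c10 := coeffs n hn0 hn Φ hΦ 10 (by norm_num)
  have c120 := coeffs n hn0 hn Φ hΦ 120 (by norm_num)
  obtain ⟨s, hs, hst⟩ : ∃ s : ℕ, t ^ 2 = (s : ℤ) ^ 2 ∧ s = t.natAbs :=
    ⟨t.natAbs, by rw [Int.natCast_natAbs, sq_abs], rfl⟩
  have hs7 : s < 7 := by
    by_contra h
    push Not at h
    have h7 : (7 : ℤ) ≤ (s : ℤ) := by exact_mod_cast h
    nlinarith
  have hs0 : s ≠ 0 := by
    intro h
    apply htp
    rw [h] at hst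
    rw [Int.natAbs_eq_zero.1 hst.symm]
    exact dvd_zero _
  have hcast : ((((t ^ 2 - 2 * 11) * PowerSeries.coeff 10 Φ - PowerSeries.coeff 120 Φ : ℤ)) :
      ZMod 121) = 0 := by
    rw [ZMod.intCast_zmod_eq_zero_iff_dvd]
    exact hcong
  rcases chkT n hmem s (List.mem_range.2 hs7) with h | h | h | h
  · omega
  · exact absurd h hs0
  · exfalso
    apply h
    rw [hs] at hcast
    push_cast at hcast
    rw [c10, c120] at hcast
    linear_combination hcast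
  · rw [hs]
    exact_mod_cast h

end Pool.Agent.H117.OCSmall11
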