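import Pool.Agent.H770.GS.TL
import Pool.Agent.H37.GSmono

/-!
# Project TL: `S_TL1`
-/

set_option autoImplicit false

open MeasureTheory Set intervalIntegral Filter Topology

namespace Pool.Agent.H117.TL1

open Pool.Agent.H770.GS
open Pool.Agent.H37.GSmono (ee ee_pos M1 Mc_eq)

/-- partial sum of `e^(q²) I2 q` -/
noncomputable def R (q : ℝ) : ℝ := 2 * q + 4 / 3 * q ^ 3 + 8 / 15 * q ^ 5 + 16 / 105 * q ^ 7

theorem R_deriv (q : ℝ) :
    HasDerivAt R (2 + 4 * q ^ 2 + 8 / 3 * q ^ 4 + 16 / 15 * q ^ 6) q := by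
  unfold R
  refine (((((hasDerivAt_id q).const_mul 2).add ((hasDerivAt_pow 3 q).const_mul (4 / 3 : ℝ))).add
    ((hasDerivAt_pow 5 q).const_mul (8 / 15 : ℝ))).add
    ((hasDerivAt_pow 7 q).const_mul (16 / 105 : ℝ))).congr_deriv ?_
  norm_num
  ring

theorem I2_ge {q : ℝ} (hq : 0 ≤ q) : R q * Real.exp (-q ^ 2) ≤ I2 q := by
  have hd : ∀ x, HasDerivAt (fun q : ℝ => I2 q - R q * Real.exp (-q ^ 2))
      (2 * Real.exp (-x ^ 2) - ((2 + 4 * x ^ 2 + 8 / 3 * x ^ 4 + 16 / 15 * x ^ 6) *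
        Real.exp (-x ^ 2) + R x * (Real.exp (-x ^ 2) * (-(2 * x))))) x := by
    intro x
    have h1 : HasDerivAt (fun q : ℝ => Real.exp (-q ^ 2)) (Real.exp (-x ^ 2) * (-(2 * x))) x := by
      have : HasDerivAt (fun q : ℝ => -q ^ 2) (-(2 * x)) x := by
        refine (hasDerivAt_pow 2 x).fun_neg.congr_deriv ?_
        norm_num
      exact this.exp
    exact (I2_deriv x).sub ((R_deriv x).mul h1)
  have hmono : MonotoneOn (fun q : ℝ => I2 q - R q * Real.exp (-q ^ 2)) (Ici 0) := by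
    refine monotoneOn_of_deriv_nonneg (convex_Ici 0) ?_ ?_ ?_
    · exact fun x _ => (hd x).continuousAt.continuousWithinAt
    · exact fun x _ => (hd x).differentiableAt.differentiableWithinAt
    · intro x _
      rw [(hd x).deriv]
      have e : 2 * Real.exp (-x ^ 2) - ((2 + 4 * x ^ 2 + 8 / 3 * x ^ 4 + 16 / 15 * x ^ 6) *
        Real.exp (-x ^ 2) + R x * (Real.exp (-x ^ 2) * (-(2 * x)))) =
          Real.exp (-x ^ 2) * (32 / 105 * x ^ 8) := by
        unfold R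
        ring
      rw [e]
      positivity
  have h := hmono (mem_Ici.2 le_rfl) (mem_Ici.2 hq) hq
  have h0 : R 0 = 0 := by unfold R; norm_num
  simp only [I2_zero, h0, zero_mul, sub_zero] at h
  linarith

/-- the polynomial inequality -/
theorem key {r x : ℝ} (hr : 0 < r) (h0 : 0 ≤ x) (hx : x ≤ 2 * r)
    (hneg : 1 - r * x + 3 / 2 * x ^ 2 < 0) :
    0 ≤ x ^ 3 * R (r - x / 2) / 8 + (1 - r * x + 3 / 2 * x ^ 2) := by
  have hx0 : 0 < x := by
    rcases h0.eq_or_lt with h | h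
    · rw [← h] at hneg
      norm_num at hneg
    · exact h
  have hs : 6 < r ^ 2 := by
    by_contra hcon
    have e : 1 - r * x + 3 / 2 * x ^ 2 = (1 - r * x / 2) ^ 2 + (3 / 2 - r ^ 2 / 4) * x ^ 2 := by
      ring
    have : 0 ≤ (3 / 2 - r ^ 2 / 4) * x ^ 2 := mul_nonneg (by linarith [not_lt.1 hcon]) (sq_nonneg x)
    nlinarith [sq_nonneg (1 - r * x / 2)]
  have hx2 : 3 * x < 2 * r := by
    have h1 : x * (3 * x - 2 * r) < 0 := by nlinarith
    by_contra hcon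
    have h2 : 0 ≤ 3 * x - 2 * r := by linarith [not_lt.1 hcon]
    nlinarith [mul_nonneg hx0.le h2]
  obtain ⟨q, hq⟩ : ∃ q : ℝ, q = r - x / 2 := ⟨_, rfl⟩
  obtain ⟨t, ht⟩ : ∃ t : ℝ, t = r * x := ⟨_, rfl⟩
  have hq1 : 2 / 3 * r ≤ q := by linarith
  have hq0 : 0 < q := by linarith
  have ht0 : 0 < t := by rw [ht]; positivity
  rw [← hq, ← ht]
  rcases le_total t 4 with h4 | h4
  · -- `t ≤ 4`
    have hm : r ^ 2 - 2 ≤ q * r := by
      have : q * r = r ^ 2 - t / 2 := by rw [hq, ht]; ring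
      linarith
    have hy : 8 / 9 * r ^ 2 - 8 / 3 ≤ q ^ 2 := by
      have h1 : (r ^ 2 - 2) ^ 2 ≤ (q * r) ^ 2 := pow_le_pow_left₀ (by linarith) hm 2
      have h2 : r ^ 2 * (8 / 9 * r ^ 2 - 8 / 3) ≤ r ^ 2 * q ^ 2 := by
        nlinarith [sq_nonneg (r ^ 2 / 3 - 2)]
      exact le_of_mul_le_mul_left h2 (by positivity)
    obtain ⟨y, hyd⟩ : ∃ y : ℝ, y = q ^ 2 := ⟨_, rfl⟩
    rw [← hyd] at hy
    have hy1 : 8 / 3 ≤ y := by linarith
    have hsy : r ^ 2 ≤ 9 / 8 * y + 3 := by linarith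
    have hpoly : 32 / 27 * r ^ 2 ≤ 4 / 3 * (1 + 2 / 3 * y + 4 / 15 * y ^ 2 + 8 / 105 * y ^ 3) := by
      have h1 : 32 / 27 * r ^ 2 ≤ 4 / 3 * y + 32 / 9 := by linarith
      have h2 : 64 / 9 ≤ y ^ 2 := by nlinarith
      have h3 : 64 / 9 * y ≤ y ^ 3 := by nlinarith
      nlinarith
    have hm2 : 2 / 3 * r ^ 2 ≤ q * r := by linarith
    have hR : 32 / 27 * r ^ 3 ≤ R q := by
      have h1 : R q * r = 2 * (q * r) * (1 + 2 / 3 * y + 4 / 15 * y ^ 2 + 8 / 105 * y ^ 3) := by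
        rw [hyd]
        unfold R
        ring
      have hpos : 0 ≤ 1 + 2 / 3 * y + 4 / 15 * y ^ 2 + 8 / 105 * y ^ 3 := by positivity
      have h2 : 2 * (2 / 3 * r ^ 2) * (1 + 2 / 3 * y + 4 / 15 * y ^ 2 + 8 / 105 * y ^ 3) ≤
          2 * (q * r) * (1 + 2 / 3 * y + 4 / 15 * y ^ 2 + 8 / 105 * y ^ 3) :=
        mul_le_mul_of_nonneg_right (by linarith) hpos
      have h3 : r ^ 2 * (32 / 27 * r ^ 2) ≤
          r ^ 2 * (4 / 3 * (1 + 2 / 3 * y + 4 / 15 * y ^ 2 + 8 / 105 * y ^ 3)) :=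
        mul_le_mul_of_nonneg_left hpoly (by positivity)
      have h4 : 32 / 27 * r ^ 3 * r ≤ R q * r := by
        rw [h1]
        have e1 : 32 / 27 * r ^ 3 * r = r ^ 2 * (32 / 27 * r ^ 2) := by ring
        have e2 : r ^ 2 * (4 / 3 * (1 + 2 / 3 * y + 4 / 15 * y ^ 2 + 8 / 105 * y ^ 3)) =
            2 * (2 / 3 * r ^ 2) * (1 + 2 / 3 * y + 4 / 15 * y ^ 2 + 8 / 105 * y ^ 3) := by ring
        rw [e1]
        linarith
      exact le_of_mul_le_mul_right h4 hr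
    have h5 : x ^ 3 * (32 / 27 * r ^ 3) ≤ x ^ 3 * R q :=
      mul_le_mul_of_nonneg_left hR (by positivity)
    have h6 : x ^ 3 * (32 / 27 * r ^ 3) / 8 = 4 / 27 * t ^ 3 := by rw [ht]; ring
    have h7 : 0 ≤ 4 / 27 * t ^ 3 - t + 1 := by
      have e : 4 / 27 * t ^ 3 - t + 1 = 1 / 27 * ((2 * t - 3) ^ 2 * (t + 3)) := by ring
      rw [e]
      positivity
    nlinarith [sq_nonneg x]
  · -- `4 ≤ t`
    have hR : 3 / 8 * r ^ 3 ≤ R q := by
      have h1 : (2 / 3 * r) ^ 3 ≤ q ^ 3 := pow_le_pow_left₀ (by positivity) hq1 3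
      have h2 : 0 ≤ 2 * q + 8 / 15 * q ^ 5 + 16 / 105 * q ^ 7 := by positivity
      have h3 : 0 < r ^ 3 := by positivity
      unfold R
      nlinarith
    have h5 : x ^ 3 * (3 / 8 * r ^ 3) ≤ x ^ 3 * R q :=
      mul_le_mul_of_nonneg_left hR (by positivity)
    have h6 : x ^ 3 * (3 / 8 * r ^ 3) / 8 = 3 / 64 * t ^ 3 := by rw [ht]; ring
    have h7 : 0 ≤ 3 / 64 * t ^ 3 - t + 1 := by
      have e : 3 / 64 * t ^ 3 - t + 1 = 1 / 64 * ((t - 4) * (3 * t ^ 2 + 12 * t - 16)) := by ring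
      rw [e]
      have h8 : 0 ≤ t - 4 := by linarith
      have h9 : 0 ≤ 3 * t ^ 2 + 12 * t - 16 := by nlinarith
      positivity
    nlinarith [sq_nonneg x]

theorem tl1 : S_TL1 := by
  intro r x hr _ h0 hx
  have hf := fL_nonneg hx
  refine ⟨?_, hf⟩
  rw [Mc_eq, one_mul]
  unfold M1
  have he := ee_pos r x
  rcases le_or_gt 0 (1 - r * x + 3 / 2 * x ^ 2) with h | h
  · have h1 : 0 ≤ ee r x * (1 - r * x + 3 / 2 * x ^ 2) := mul_nonneg he.le h
    have h2 : 0 ≤ x ^ 3 * fL r x := mul_nonneg (by positivity) hf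
    nlinarith
  · have hk := key hr h0 hx h
    have hp : R (r - x / 2) * ee r x ≤ fL r x := by
      have h1 := I2_ge (q := r - x / 2) (by linarith)
      have h2 := mul_le_mul_of_nonneg_left h1 (Real.exp_pos (-x ^ 2 / 4)).le
      have e : R (r - x / 2) * ee r x =
          Real.exp (-x ^ 2 / 4) * (R (r - x / 2) * Real.exp (-(r - x / 2) ^ 2)) := by
        unfold ee
        ring
      rw [e]
      exact h2
    have h3 : x ^ 3 * (R (r - x / 2) * ee r x) ≤ x ^ 3 * fL r x :=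
      mul_le_mul_of_nonneg_left hp (by positivity)
    have h4 := mul_nonneg he.le hk
    nlinarith

end Pool.Agent.H117.TL1
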