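import Pool.Agent.H770.GS.UQC

/-!
# Project UQ, statement S_fin2 (the case of dimension four)
-/

set_option autoImplicit false

open MeasureTheory Set intervalIntegral Filter Topology

namespace Pool.Agent.H117.UQ22

open Pool.Agent.H770.GS Pool.Agent.Helper82.GC

theorem sum_eq (a b : ℝ) :
    ((a :: a :: List.replicate 2 b).map fun x => x ^ 2).sum = 2 * a ^ 2 + ((2 : ℕ) : ℝ) * b ^ 2 := by
  simp [List.replicate]
  ring

theorem s_fin2 : S_fin2 := by
  intro hlink r l hr hl hl1 hTw hF2 hmono hV L hL hs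
  obtain ⟨a, b, hb0, hba, ha, rfl⟩ := hTw L hL hs
  obtain ⟨hlen, hsum, hnn, hmax⟩ := hL
  rw [sum_eq] at hsum
  have h2 : ((2 : ℕ) : ℝ) = 2 := by norm_num
  rcases eq_or_lt_of_le hba with hab | hab
  · -- all entries equal
    right
    subst hab
    rw [h2] at hsum
    have hb2 : b ^ 2 = 1 / 4 := by linarith
    have hb : b = 1 / Real.sqrt (((2 : ℕ) : ℝ) + 2) := by
      have e : ((2 : ℕ) : ℝ) + 2 = 2 ^ 2 := by norm_num
      rw [e, Real.sqrt_sq (by norm_num)]
      have h5 : (b - 1 / 2) * (b + 1 / 2) = 0 := by linarith [sq b]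
      rcases mul_eq_zero.1 h5 with h6 | h6
      · linarith
      · linarith
    unfold Ln
    rw [← hb]
    rfl
  rcases eq_or_lt_of_le hb0 with hb | hb
  · -- two entries
    left
    subst hb
    have ha2 : a ^ 2 = 1 / 2 := by
      rw [h2] at hsum
      linarith
    have e : a = 1 / Real.sqrt 2 := by
      have h3 : 0 < 1 / Real.sqrt 2 := by positivity
      have h4 : (1 / Real.sqrt 2) ^ 2 = 1 / 2 := by
        rw [div_pow, Real.sq_sqrt (by norm_num), one_pow]
      have h5 : (a - 1 / Real.sqrt 2) * (a + 1 / Real.sqrt 2) = 0 := by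
        linarith [sq a, sq (1 / Real.sqrt 2)]
      rcases mul_eq_zero.1 h5 with h6 | h6
      · linarith
      · linarith
    unfold L2
    rw [← e]
  · exfalso
    obtain ⟨s, hsd⟩ : ∃ s, s = ((2 : ℕ) : ℝ) * b ^ 2 / a ^ 2 := ⟨_, rfl⟩
    have hM : Asl r (vec (2 + 2) (a :: a :: List.replicate 2 b)) 0 = FF r 2 s := by
      rw [hsd]
      exact hlink r a b 2 hr (by norm_num) ha hb0 hsum
    have hs0 : 0 < s := by
      rw [hsd, h2]
      positivity
    have hs2 : s < 2 := by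
      rw [hsd, h2, div_lt_iff₀ (by positivity)]
      have : b ^ 2 < a ^ 2 := pow_lt_pow_left₀ hab hb0 (by norm_num)
      linarith
    -- the two special vectors
    have hsum1 : 2 * (1 / 2 : ℝ) ^ 2 + ((2 : ℕ) : ℝ) * (1 / 2 : ℝ) ^ 2 = 1 := by norm_num
    have hF22 : FF r 2 2 ≤ FF r 2 s := by
      have h3 := hmax (dirAB 2 (1 / 2) (1 / 2)) (vec_norm (by simp) (by
        rw [sum_eq]; exact hsum1))
      rw [hM, hlink r (1 / 2) (1 / 2) 2 hr (by norm_num) (by norm_num) (by norm_num) hsum1] at h3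
      have e : ((2 : ℕ) : ℝ) * (1 / 2 : ℝ) ^ 2 / (1 / 2 : ℝ) ^ 2 = 2 := by norm_num
      rw [e] at h3
      exact h3
    have hsq2 : (1 / Real.sqrt 2) ^ 2 = 1 / 2 := by
      rw [div_pow, Real.sq_sqrt (by norm_num), one_pow]
    have hsum0 : 2 * (1 / Real.sqrt 2) ^ 2 + ((2 : ℕ) : ℝ) * (0 : ℝ) ^ 2 = 1 := by
      rw [hsq2]
      norm_num
    have hF20 : FF r 2 0 ≤ FF r 2 s := by
      have h3 := hmax (dirAB 2 (1 / Real.sqrt 2) 0) (vec_norm (by simp) (by
        rw [sum_eq]; exact hsum0))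
      rw [hM, hlink r (1 / Real.sqrt 2) 0 2 hr (by norm_num) (by positivity) le_rfl hsum0] at h3
      have e : ((2 : ℕ) : ℝ) * (0 : ℝ) ^ 2 / (1 / Real.sqrt 2) ^ 2 = 0 := by
        simp
      rw [e] at h3
      exact h3
    have h12 : FF r 2 1 < FF r 2 2 := hF2 1 2 le_rfl (by norm_num) le_rfl
    rcases le_or_gt 1 s with h1 | h1
    · have h3 := hF2 s 2 h1 hs2 le_rfl
      linarith
    rcases le_or_gt (l ^ 2) s with h3 | h3
    · have h4 := hmono s h3 h1.le
      linarith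
    · obtain ⟨t, ht0, ht1, ht⟩ := hV s hs0 h3
      have hl2 : l ^ 2 ≤ 1 := by nlinarith
      have h4 := hmono (l ^ 2) le_rfl hl2
      have h5 : (1 - t) * FF r 2 s ≤ (1 - t) * FF r 2 (l ^ 2) := by
        nlinarith [mul_le_mul_of_nonneg_left hF20 ht0.le]
      have h6 : FF r 2 s ≤ FF r 2 (l ^ 2) := le_of_mul_le_mul_left h5 (by linarith)
      linarith

end Pool.Agent.H117.UQ22
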